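import Pool.Agent.Helper47.Perc.Defs

/-!
# Mod 2 Jordan lemma for lattice walks in a horizontal strip

The face `(i,j)` is the unit square with lower left corner `(i,j)`; `side p (i,j)` is the parity of
the number of vertical edges `s((x,j),(x,j+1))`, `x ≤ i`, traversed by the walk `p`.
-/

namespace H47Perc

open SimpleGraph

/-- parity of a proposition -/
noncomputable def par (P : Prop) : ZMod 2 := open Classical in if P then 1 else 0

theorem par_true {P : Prop} (h : P) : par P = 1 := by simp [par, h]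
theorem par_false {P : Prop} (h : ¬ P) : par P = 0 := by simp [par, h]

theorem zmod2_add_self (a : ZMod 2) : a + a = 0 := CharTwo.add_self_eq_zero a

/-- contribution of one edge to the side of the face `f` -/
noncomputable def eside (e : Sym2 (ℤ × ℤ)) (f : ℤ × ℤ) : ZMod 2 :=
  par (∃ x ≤ f.1, e = s((x, f.2), (x, f.2 + 1)))

/-- the side of the face `f` with respect to the walk `p` -/
noncomputable def side {u v : ℤ × ℤ} (p : lattice.Walk u v) (f : ℤ × ℤ) : ZMod 2 :=
  (p.edges.map (fun e => eside e f)).sum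

/-- parity of the number of passages of `p` through the edge `e` -/
noncomputable def ecount {u v : ℤ × ℤ} (p : lattice.Walk u v) (e : Sym2 (ℤ × ℤ)) : ZMod 2 :=
  (p.edges.map (fun e' => par (e' = e))).sum

theorem side_nil (u f : ℤ × ℤ) : side (Walk.nil : lattice.Walk u u) f = 0 := by simp [side]

theorem side_cons {u v w : ℤ × ℤ} (h : lattice.Adj u v) (p : lattice.Walk v w) (f : ℤ × ℤ) :
    side (Walk.cons h p) f = eside s(u, v) f + side p f := by simp [side]

theorem ecount_nil (u : ℤ × ℤ) (e : Sym2 (ℤ × ℤ)) :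
    ecount (Walk.nil : lattice.Walk u u) e = 0 := by simp [ecount]

theorem ecount_cons {u v w : ℤ × ℤ} (h : lattice.Adj u v) (p : lattice.Walk v w)
    (e : Sym2 (ℤ × ℤ)) : ecount (Walk.cons h p) e = par (s(u, v) = e) + ecount p e := by
  simp [ecount]

theorem ecount_eq_zero {u v : ℤ × ℤ} (p : lattice.Walk u v) {e : Sym2 (ℤ × ℤ)}
    (h : e ∉ p.edges) : ecount p e = 0 := by
  unfold ecount
  apply List.sum_eq_zero
  intro x hx
  rw [List.mem_map] at hx
  obtain ⟨e', he', rfl⟩ := hx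
  apply par_false
  rintro rfl
  exact h he'

/-- the cases of adjacency -/
theorem adj_cases {u v : ℤ × ℤ} (h : lattice.Adj u v) :
    (v = (u.1, u.2 + 1)) ∨ (v = (u.1, u.2 - 1)) ∨ (v = (u.1 + 1, u.2)) ∨ (v = (u.1 - 1, u.2)) := by
  obtain ⟨u1, u2⟩ := u
  obtain ⟨v1, v2⟩ := v
  rcases h with ⟨h1, h2⟩ | ⟨h1, h2⟩
  · simp only at h1 h2
    subst h1
    rcases abs_eq (by norm_num : (0:ℤ) ≤ 1) |>.mp h2 with h | h
    · right; left; ext <;> simp; omega
    · left; ext <;> simp; omega
  · simp only at h1 h2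
    subst h1
    rcases abs_eq (by norm_num : (0:ℤ) ≤ 1) |>.mp h2 with h | h
    · right; right; right; ext <;> simp; omega
    · right; right; left; ext <;> simp; omega

theorem eside_vert (x y i j : ℤ) : eside s((x, y), (x, y+1)) (i, j) = par (y = j ∧ x ≤ i) := by
  unfold eside
  congr 1
  simp only [Sym2.eq_iff, Prod.mk.injEq, eq_iff_iff]
  constructor
  · rintro ⟨x', hx', (⟨⟨h1, h2⟩, h3, h4⟩ | ⟨⟨h1, h2⟩, h3, h4⟩)⟩
    · exact ⟨h2, by omega⟩
    · omega
  · rintro ⟨h1, h2⟩
    exact ⟨x, h2, Or.inl ⟨⟨rfl, h1⟩, rfl, by omega⟩⟩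

theorem eside_hor (x y i j : ℤ) : eside s((x, y), (x+1, y)) (i, j) = 0 := by
  unfold eside
  apply par_false
  simp only [Sym2.eq_iff, Prod.mk.injEq, not_exists, not_and]
  rintro x' hx' (⟨⟨h1, h2⟩, h3, h4⟩ | ⟨⟨h1, h2⟩, h3, h4⟩) <;> omega

theorem par_add {P Q R : Prop} (h : (P ∧ ¬ Q ∧ R) ∨ (¬ P ∧ Q ∧ R) ∨ (P ∧ Q ∧ ¬ R) ∨ (¬ P ∧ ¬ Q ∧ ¬ R)) :
    par P + par Q = par R := by
  rcases h with ⟨h1, h2, h3⟩ | ⟨h1, h2, h3⟩ | ⟨h1, h2, h3⟩ | ⟨h1, h2, h3⟩
  · rw [par_true h1, par_false h2, par_true h3]; rfl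
  · rw [par_false h1, par_true h2, par_true h3]; rfl
  · rw [par_true h1, par_true h2, par_false h3]; rfl
  · rw [par_false h1, par_false h2, par_false h3]; rfl

theorem par_cases (P : Prop) : (P ∧ par P = 1) ∨ (¬ P ∧ par P = 0) := by
  by_cases h : P
  · exact Or.inl ⟨h, par_true h⟩
  · exact Or.inr ⟨h, par_false h⟩

theorem vert_eq_iff (x y x' y' : ℤ) : (s((x, y), (x, y+1)) : Sym2 (ℤ × ℤ)) = s((x', y'), (x', y'+1))
    ↔ x = x' ∧ y = y' := by
  simp only [Sym2.eq_iff, Prod.mk.injEq]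
  constructor
  · rintro (⟨⟨h1, h2⟩, h3, h4⟩ | ⟨⟨h1, h2⟩, h3, h4⟩) <;> omega
  · rintro ⟨rfl, rfl⟩; simp

theorem hor_eq_iff (x y x' y' : ℤ) : (s((x, y), (x+1, y)) : Sym2 (ℤ × ℤ)) = s((x', y'), (x'+1, y'))
    ↔ x = x' ∧ y = y' := by
  simp only [Sym2.eq_iff, Prod.mk.injEq]
  constructor
  · rintro (⟨⟨h1, h2⟩, h3, h4⟩ | ⟨⟨h1, h2⟩, h3, h4⟩) <;> omega
  · rintro ⟨rfl, rfl⟩; simp

theorem hor_ne_vert (x y x' y' : ℤ) :
    (s((x, y), (x+1, y)) : Sym2 (ℤ × ℤ)) ≠ s((x', y'), (x', y'+1)) := by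
  simp only [ne_eq, Sym2.eq_iff, Prod.mk.injEq]
  rintro (⟨⟨h1, h2⟩, h3, h4⟩ | ⟨⟨h1, h2⟩, h3, h4⟩) <;> omega

/-- every lattice edge is vertical or horizontal -/
theorem adj_edge_cases {u v : ℤ × ℤ} (h : lattice.Adj u v) :
    (∃ x y, s(u, v) = s((x, y), (x, y+1)) ∧ ((u = (x,y) ∧ v = (x,y+1)) ∨ (v = (x,y) ∧ u = (x,y+1)))) ∨
    (∃ x y, s(u, v) = s((x, y), (x+1, y)) ∧ ((u = (x,y) ∧ v = (x+1,y)) ∨ (v = (x,y) ∧ u = (x+1,y)))) := by
  rcases adj_cases h with h1 | h1 | h1 | h1
  · left
    refine ⟨u.1, u.2, by rw [h1], Or.inl ⟨rfl, h1⟩⟩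
  · left
    have h2 : u = (v.1, v.2 + 1) := by rw [h1]; ext <;> simp
    refine ⟨v.1, v.2, ?_, Or.inr ⟨rfl, h2⟩⟩
    rw [Sym2.eq_swap, ← h2]
  · right
    refine ⟨u.1, u.2, by rw [h1], Or.inl ⟨rfl, h1⟩⟩
  · right
    have h2 : u = (v.1 + 1, v.2) := by rw [h1]; ext <;> simp
    refine ⟨v.1, v.2, ?_, Or.inr ⟨rfl, h2⟩⟩
    rw [Sym2.eq_swap, ← h2]

/-- (a) crossing a vertical edge -/
theorem side_right {u v : ℤ × ℤ} (p : lattice.Walk u v) (i j : ℤ) :
    side p (i+1, j) = side p (i, j) + ecount p s((i+1, j), (i+1, j+1)) := by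
  induction p with
  | nil => simp [side_nil, ecount_nil]
  | cons h p ih =>
    rw [side_cons, side_cons, ecount_cons, ih]
    have key : ∀ {u v : ℤ × ℤ}, lattice.Adj u v → eside s(u, v) (i+1, j)
        = eside s(u, v) (i, j) + par (s(u, v) = s((i+1, j), (i+1, j+1))) := by
      intro u v h
      rcases adj_edge_cases h with ⟨x, y, he, _⟩ | ⟨x, y, he, _⟩
      · rw [he, eside_vert, eside_vert, vert_eq_iff]
        symm
        apply par_add
        by_cases hy : y = j
        · rcases lt_trichotomy x (i+1) with hx | hx | hx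
          · left; exact ⟨⟨hy, by omega⟩, by omega, ⟨hy, by omega⟩⟩
          · right; left; exact ⟨by omega, ⟨hx, hy⟩, ⟨hy, by omega⟩⟩
          · right; right; right; exact ⟨by omega, by omega, by omega⟩
        · right; right; right; exact ⟨by omega, by omega, by omega⟩
      · rw [he, eside_hor, eside_hor, par_false (hor_ne_vert _ _ _ _)]; simp
    rw [key h]
    ring

/-- membership in the left half line ending at `(i,j)` -/
noncomputable def lpar (i j : ℤ) (w : ℤ × ℤ) : ZMod 2 := par (w.2 = j ∧ w.1 ≤ i)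

/-- (b) crossing a horizontal edge -/
theorem side_up {u v : ℤ × ℤ} (p : lattice.Walk u v) (i j : ℤ) :
    side p (i, j) + side p (i, j-1) = ecount p s((i, j), (i+1, j)) + lpar i j u + lpar i j v := by
  induction p with
  | nil => simp [side_nil, ecount_nil, zmod2_add_self]
  | @cons u w v h p ih =>
    rw [side_cons, side_cons, ecount_cons]
    have key : eside s(u, w) (i, j) + eside s(u, w) (i, j-1)
        = par (s(u, w) = s((i, j), (i+1, j))) + lpar i j u + lpar i j w := by
      unfold lpar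
      rcases adj_edge_cases h with ⟨x, y, he, h2⟩ | ⟨x, y, he, h2⟩
      · rw [he, eside_vert, eside_vert]
        have e1 : ¬ (s((x, y), (x, y+1)) : Sym2 (ℤ × ℤ)) = s((i, j), (i+1, j)) :=
          fun h => hor_ne_vert _ _ _ _ h.symm
        rw [par_false e1, zero_add]
        have e2 : par (u.2 = j ∧ u.1 ≤ i) + par (w.2 = j ∧ w.1 ≤ i)
            = par (y = j ∧ x ≤ i) + par (y + 1 = j ∧ x ≤ i) := by
          rcases h2 with ⟨rfl, rfl⟩ | ⟨rfl, rfl⟩
          · rfl
          · rw [add_comm]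
        rw [e2]
        congr 2
        rw [eq_iff_iff]
        constructor <;> rintro ⟨h1, h2⟩ <;> exact ⟨by omega, h2⟩
      · rw [he, eside_hor, eside_hor, hor_eq_iff]
        have e2 : par (u.2 = j ∧ u.1 ≤ i) + par (w.2 = j ∧ w.1 ≤ i)
            = par (y = j ∧ x ≤ i) + par (y = j ∧ x + 1 ≤ i) := by
          rcases h2 with ⟨rfl, rfl⟩ | ⟨rfl, rfl⟩
          · rfl
          · rw [add_comm]
        rw [add_assoc, e2]
        have e3 : par (y = j ∧ x ≤ i) + par (y = j ∧ x + 1 ≤ i) = par (x = i ∧ y = j) := by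
          apply par_add
          by_cases hy : y = j
          · rcases lt_trichotomy x i with hx | hx | hx
            · right; right; left; exact ⟨⟨hy, by omega⟩, ⟨hy, by omega⟩, by omega⟩
            · left; exact ⟨⟨hy, by omega⟩, by omega, ⟨hx, hy⟩⟩
            · right; right; right; exact ⟨by omega, by omega, by omega⟩
          · right; right; right; exact ⟨by omega, by omega, by omega⟩
        rw [e3, zmod2_add_self, zmod2_add_self]
    have h3 := zmod2_add_self (lpar i j w)
    linear_combination key + ih + h3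

theorem side_eq_right {u v : ℤ × ℤ} (p : lattice.Walk u v) {i j : ℤ}
    (h : s((i+1, j), (i+1, j+1)) ∉ p.edges) : side p (i+1, j) = side p (i, j) := by
  rw [side_right, ecount_eq_zero p h, add_zero]

theorem side_eq_up {u v : ℤ × ℤ} (p : lattice.Walk u v) {i j : ℤ} (hu : u.2 ≠ j) (hv : v.2 ≠ j)
    (h : s((i, j), (i+1, j)) ∉ p.edges) : side p (i, j) = side p (i, j-1) := by
  have h1 := side_up p i j
  rw [ecount_eq_zero p h, lpar, lpar, par_false (fun h => hu h.1), par_false (fun h => hv h.1),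
    add_zero, add_zero] at h1
  have h2 := zmod2_add_self (side p (i, j-1))
  linear_combination h1 - h2

/-- the side is `0` to the left of the walk -/
theorem side_left {u v : ℤ × ℤ} (p : lattice.Walk u v) {i j : ℤ} (h : ∀ w ∈ p.support, i < w.1) :
    side p (i, j) = 0 := by
  unfold side
  apply List.sum_eq_zero
  intro x hx
  rw [List.mem_map] at hx
  obtain ⟨e, he, rfl⟩ := hx
  apply par_false
  rintro ⟨x, hx, rfl⟩
  have := h _ (p.fst_mem_support_of_mem_edges he)
  simp only at this hx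
  omega

/-- the side to the right of the walk -/
theorem side_far {u v : ℤ × ℤ} (p : lattice.Walk u v) {i j : ℤ} (h : ∀ w ∈ p.support, w.1 ≤ i) :
    side p (i, j) = par (j < u.2) + par (j < v.2) := by
  induction p with
  | nil => rw [side_nil, zmod2_add_self]
  | @cons u w v hadj p ih =>
    rw [side_cons, ih (fun z hz => h z (by simp [hz]))]
    have hu : u.1 ≤ i := h u (by simp)
    have hw : w.1 ≤ i := h w (by simp)
    have key : eside s(u, w) (i, j) = par (j < u.2) + par (j < w.2) := by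
      rcases adj_edge_cases hadj with ⟨x, y, he, h2⟩ | ⟨x, y, he, h2⟩
      · rw [he, eside_vert]
        have e2 : par (j < u.2) + par (j < w.2) = par (j < y) + par (j < y + 1) := by
          rcases h2 with ⟨rfl, rfl⟩ | ⟨rfl, rfl⟩
          · rfl
          · rw [add_comm]
        have hx : x ≤ i := by rcases h2 with ⟨rfl, rfl⟩ | ⟨rfl, rfl⟩ <;> simpa using hw
        rw [e2]
        symm
        apply par_add
        rcases lt_trichotomy y j with hy | hy | hy
        · right; right; right; exact ⟨by omega, by omega, by omega⟩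
        · right; left; exact ⟨by omega, by omega, ⟨hy, hx⟩⟩
        · right; right; left; exact ⟨by omega, by omega, by omega⟩
      · rw [he, eside_hor]
        rcases h2 with ⟨rfl, rfl⟩ | ⟨rfl, rfl⟩
        · exact (zmod2_add_self _).symm
        · exact (zmod2_add_self _).symm
    rw [key]
    have h3 := zmod2_add_self (par (j < w.2))
    linear_combination h3

/-- the side is `1` to the right of a walk from row `N` to row `M` (rows `M ≤ j < N`) -/
theorem side_far_one {u v : ℤ × ℤ} (p : lattice.Walk u v) {i j : ℤ}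
    (h : ∀ w ∈ p.support, w.1 ≤ i) (h1 : j < u.2) (h2 : v.2 ≤ j) : side p (i, j) = 1 := by
  rw [side_far p h, par_true h1, par_false (by omega), add_zero]

/-- the side of a vertex in the strip: the side of the face to its upper right, or to its lower
right if the vertex is in the top row `N` -/
noncomputable def vside {u v : ℤ × ℤ} (p : lattice.Walk u v) (w : ℤ × ℤ) : ZMod 2 :=
  open Classical in if w.2 < u.2 then side p w else side p (w.1, w.2 - 1)

theorem not_mem_edges_left {u v : ℤ × ℤ} (p : lattice.Walk u v) {a b : ℤ × ℤ}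
    (h : a ∉ p.support) : s(a, b) ∉ p.edges := fun h1 => h (p.fst_mem_support_of_mem_edges h1)

theorem not_mem_edges_right {u v : ℤ × ℤ} (p : lattice.Walk u v) {a b : ℤ × ℤ}
    (h : b ∉ p.support) : s(a, b) ∉ p.edges := fun h1 => h (p.snd_mem_support_of_mem_edges h1)

/-- all faces of the strip at a vertex off the walk have the side of the vertex -/
theorem side_of_vertex {u v : ℤ × ℤ} (p : lattice.Walk u v) (w : ℤ × ℤ)
    (hw : w ∉ p.support) (hw1 : v.2 ≤ w.2) (hw2 : w.2 ≤ u.2) (f : ℤ × ℤ)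
    (hf1 : f.1 = w.1 ∨ f.1 = w.1 - 1) (hf2 : f.2 = w.2 ∨ f.2 = w.2 - 1)
    (hf3 : v.2 ≤ f.2) (hf4 : f.2 < u.2) : side p f = vside p w := by
  obtain ⟨x, y⟩ := w
  obtain ⟨i, j⟩ := f
  simp only at hw1 hw2 hf1 hf2 hf3 hf4
  -- upper faces
  have hup : side p (x, y) = side p (x - 1, y) := by
    have := side_eq_right p (i := x - 1) (j := y)
      (by rw [sub_add_cancel]; exact not_mem_edges_left p hw)
    rwa [sub_add_cancel] at this
  have hdn : side p (x, y-1) = side p (x - 1, y-1) := by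
    have := side_eq_right p (i := x - 1) (j := y - 1)
      (by rw [sub_add_cancel, sub_add_cancel]; exact not_mem_edges_right p hw)
    rwa [sub_add_cancel] at this
  unfold vside
  simp only
  by_cases hy : y < u.2
  · rw [if_pos hy]
    rcases hf2 with rfl | rfl
    · rcases hf1 with rfl | rfl
      · rfl
      · exact hup.symm
    · have hmid : side p (x, y) = side p (x, y - 1) :=
        side_eq_up p (by omega) (by omega) (not_mem_edges_left p hw)
      rcases hf1 with rfl | rfl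
      · exact hmid.symm
      · rw [hmid]; exact hdn.symm
  · rw [if_neg hy]
    have : j = y - 1 := by omega
    subst this
    rcases hf1 with rfl | rfl
    · rfl
    · exact hdn.symm

/-- adjacent vertices of the strip off the walk are on the same side -/
theorem vside_adj {u v : ℤ × ℤ} (p : lattice.Walk u v) (huv : v.2 < u.2) {a b : ℤ × ℤ}
    (hab : lattice.Adj a b) (ha : a ∉ p.support) (hb : b ∉ p.support)
    (ha1 : v.2 ≤ a.2) (ha2 : a.2 ≤ u.2) (hb1 : v.2 ≤ b.2) (hb2 : b.2 ≤ u.2) :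
    vside p a = vside p b := by
  obtain ⟨f, h1, h2, h3, h4, h5, h6⟩ : ∃ f : ℤ × ℤ, (f.1 = a.1 ∨ f.1 = a.1 - 1) ∧
      (f.2 = a.2 ∨ f.2 = a.2 - 1) ∧ (f.1 = b.1 ∨ f.1 = b.1 - 1) ∧ (f.2 = b.2 ∨ f.2 = b.2 - 1) ∧
      v.2 ≤ f.2 ∧ f.2 < u.2 := by
    rcases adj_edge_cases hab with ⟨x, y, _, (⟨rfl, rfl⟩ | ⟨rfl, rfl⟩)⟩ | ⟨x, y, _, (⟨rfl, rfl⟩ | ⟨rfl, rfl⟩)⟩
    · exact ⟨(x, y), by simp, by simp, by simp, by simp, ha1, by simp only at hb2 ⊢; omega⟩
    · exact ⟨(x, y), by simp, by simp, by simp, by simp, hb1, by simp only at ha2 ⊢; omega⟩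
    · by_cases hy : y < u.2
      · exact ⟨(x, y), by simp, by simp, by simp, by simp, ha1, hy⟩
      · simp only at ha1 ha2
        exact ⟨(x, y-1), by simp, by simp, by simp, by simp, by simp only; omega, by simp only; omega⟩
    · by_cases hy : y < u.2
      · exact ⟨(x, y), by simp, by simp, by simp, by simp, hb1, hy⟩
      · simp only at ha1 ha2
        exact ⟨(x, y-1), by simp, by simp, by simp, by simp, by simp only; omega, by simp only; omega⟩
  rw [← side_of_vertex p a ha ha1 ha2 f h1 h2 h5 h6, ← side_of_vertex p b hb hb1 hb2 f h3 h4 h5 h6]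

/-- the side is constant along walks in the strip that avoid `p` -/
theorem vside_const {u v : ℤ × ℤ} (p : lattice.Walk u v) (huv : v.2 < u.2) {a b : ℤ × ℤ}
    (q : lattice.Walk a b) (hq : ∀ w ∈ q.support, v.2 ≤ w.2 ∧ w.2 ≤ u.2)
    (hpq : ∀ w ∈ q.support, w ∉ p.support) : ∀ w ∈ q.support, vside p w = vside p b := by
  induction q with
  | nil =>
    intro w hw
    rw [Walk.support_nil, List.mem_singleton] at hw
    rw [hw]
  | @cons a c b h q ih =>
    have ih' := ih (fun w hw => hq w (by simp [hw])) (fun w hw => hpq w (by simp [hw]))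
    intro w hw
    rw [Walk.support_cons, List.mem_cons] at hw
    rcases hw with rfl | hw
    · rw [vside_adj p huv h (hpq _ (by simp)) (hpq _ (by simp)) (hq _ (by simp)).1
        (hq _ (by simp)).2 (hq _ (by simp)).1 (hq _ (by simp)).2]
      exact ih' c (by simp)
    · exact ih' w hw

/-- vertices to the left of `p` are on side `0` -/
theorem vside_left {u v : ℤ × ℤ} (p : lattice.Walk u v) (huv : v.2 < u.2) {a : ℤ × ℤ}
    (ha : a ∉ p.support) (ha1 : v.2 ≤ a.2) (ha2 : a.2 ≤ u.2) (h : ∀ w ∈ p.support, a.1 ≤ w.1) :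
    vside p a = 0 := by
  have h1 : ∀ j, side p (a.1 - 1, j) = 0 := fun j =>
    side_left p (fun w hw => by have := h w hw; omega)
  by_cases hy : a.2 < u.2
  · rw [← side_of_vertex p a ha ha1 ha2 (a.1 - 1, a.2) (by simp) (by simp) ha1 hy]
    exact h1 _
  · rw [← side_of_vertex p a ha ha1 ha2 (a.1 - 1, a.2 - 1) (by simp) (by simp)
      (by simp only; omega) (by simp only; omega)]
    exact h1 _

/-- vertices to the right of `p` are on side `1` -/
theorem vside_right {u v : ℤ × ℤ} (p : lattice.Walk u v) (huv : v.2 < u.2) {a : ℤ × ℤ}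
    (ha : a ∉ p.support) (ha1 : v.2 ≤ a.2) (ha2 : a.2 ≤ u.2) (h : ∀ w ∈ p.support, w.1 ≤ a.1) :
    vside p a = 1 := by
  by_cases hy : a.2 < u.2
  · rw [← side_of_vertex p a ha ha1 ha2 (a.1, a.2) (by simp) (by simp) ha1 hy]
    exact side_far_one p h hy ha1
  · rw [← side_of_vertex p a ha ha1 ha2 (a.1, a.2 - 1) (by simp) (by simp)
      (by simp only; omega) (by simp only; omega)]
    exact side_far_one p h (by omega) (by omega)

/-- (d) **Crossing**: a walk from row `u.2` to row `v.2 < u.2` and a walk inside the strip between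
these rows, from the left of the first walk to its right, share a vertex. -/
theorem crossing_walks {u v a b : ℤ × ℤ} (p : lattice.Walk u v) (q : lattice.Walk a b)
    (huv : v.2 < u.2) (hq : ∀ w ∈ q.support, v.2 ≤ w.2 ∧ w.2 ≤ u.2)
    (ha : ∀ w ∈ p.support, a.1 ≤ w.1) (hb : ∀ w ∈ p.support, w.1 ≤ b.1) :
    ∃ w, w ∈ p.support ∧ w ∈ q.support := by
  by_contra hcon
  have hpq : ∀ w ∈ q.support, w ∉ p.support := fun w hw hw' => hcon ⟨w, hw', hw⟩
  have h1 := vside_const p huv q hq hpq a q.start_mem_support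
  have h2 := hq a q.start_mem_support
  have h3 := hq b q.end_mem_support
  rw [vside_left p huv (hpq a q.start_mem_support) h2.1 h2.2 ha,
    vside_right p huv (hpq b q.end_mem_support) h3.1 h3.2 hb] at h1
  exact absurd h1 (by decide)

/-- the lattice edge crossed by a step between adjacent faces -/
def crossEdge (f g : ℤ × ℤ) : Sym2 (ℤ × ℤ) :=
  if f.2 = g.2 then s((max f.1 g.1, f.2), (max f.1 g.1, f.2 + 1))
  else s((f.1, max f.2 g.2), (f.1 + 1, max f.2 g.2))

theorem crossEdge_comm {f g : ℤ × ℤ} (h : lattice.Adj f g) : crossEdge f g = crossEdge g f := by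
  rcases adj_edge_cases h with ⟨x, y, _, (⟨rfl, rfl⟩ | ⟨rfl, rfl⟩)⟩ | ⟨x, y, _, (⟨rfl, rfl⟩ | ⟨rfl, rfl⟩)⟩
  all_goals simp [crossEdge]

theorem side_face_adj {u v : ℤ × ℤ} (p : lattice.Walk u v) {f g : ℤ × ℤ}
    (h : lattice.Adj f g) (hf1 : v.2 ≤ f.2) (hf2 : f.2 < u.2) (hg1 : v.2 ≤ g.2) (hg2 : g.2 < u.2)
    (hc : crossEdge f g ∉ p.edges) : side p f = side p g := by
  have key : ∀ {f g : ℤ × ℤ}, (g = (f.1, f.2+1) ∨ g = (f.1+1, f.2)) → v.2 ≤ f.2 → g.2 < u.2 →
      crossEdge f g ∉ p.edges → side p f = side p g := by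
    rintro ⟨i, j⟩ g (rfl | rfl) h1 h2 h3
    · simp only at h1 h2
      have e : crossEdge (i, j) (i, j+1) = s((i, j+1), (i+1, j+1)) := by
        unfold crossEdge
        rw [if_neg (by simp)]
        simp
      simp only at h3
      rw [e] at h3
      have := side_eq_up p (i := i) (j := j+1) (by omega) (by omega) h3
      rw [add_sub_cancel_right] at this
      exact this.symm
    · have e : crossEdge (i, j) (i+1, j) = s((i+1, j), (i+1, j+1)) := by
        unfold crossEdge
        rw [if_pos rfl]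
        simp
      simp only at h3
      rw [e] at h3
      exact (side_eq_right p h3).symm
  rcases adj_edge_cases h with ⟨x, y, _, (⟨rfl, rfl⟩ | ⟨rfl, rfl⟩)⟩ | ⟨x, y, _, (⟨rfl, rfl⟩ | ⟨rfl, rfl⟩)⟩
  · exact key (Or.inl rfl) hf1 hg2 hc
  · rw [crossEdge_comm h] at hc
    exact (key (Or.inl rfl) hg1 hf2 hc).symm
  · exact key (Or.inr rfl) hf1 hg2 hc
  · rw [crossEdge_comm h] at hc
    exact (key (Or.inr rfl) hg1 hf2 hc).symm

/-- the side is constant along face walks that do not cross `p` -/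
theorem side_face_const {u v : ℤ × ℤ} (p : lattice.Walk u v) {f g : ℤ × ℤ}
    (q : lattice.Walk f g) (hq : ∀ w ∈ q.support, v.2 ≤ w.2 ∧ w.2 < u.2)
    (hc : ∀ d ∈ q.darts, crossEdge d.fst d.snd ∉ p.edges) :
    ∀ w ∈ q.support, side p w = side p g := by
  induction q with
  | nil =>
    intro w hw
    rw [Walk.support_nil, List.mem_singleton] at hw
    rw [hw]
  | @cons a c b h q ih =>
    have ih' := ih (fun w hw => hq w (by simp [hw])) (fun d hd => hc d (by simp [hd]))
    intro w hw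
    rw [Walk.support_cons, List.mem_cons] at hw
    rcases hw with rfl | hw
    · rw [side_face_adj p h (hq _ (by simp)).1 (hq _ (by simp)).2 (hq _ (by simp)).1
        (hq _ (by simp)).2 (hc ⟨(_, c), h⟩ (by simp))]
      exact ih' c (by simp)
    · exact ih' w hw

/-- (e) **Dual crossing**: a walk `q` of faces, inside the strip between the rows `v.2 < u.2`, from the
left of `p` to its right, crosses an edge of `p`. -/
theorem crossing_faces {u v f g : ℤ × ℤ} (p : lattice.Walk u v) (q : lattice.Walk f g)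
    (hq : ∀ w ∈ q.support, v.2 ≤ w.2 ∧ w.2 < u.2)
    (hf : ∀ w ∈ p.support, f.1 < w.1) (hg : ∀ w ∈ p.support, w.1 ≤ g.1) :
    ∃ d ∈ q.darts, crossEdge d.fst d.snd ∈ p.edges := by
  by_contra hcon
  have hc : ∀ d ∈ q.darts, crossEdge d.fst d.snd ∉ p.edges := fun d hd h => hcon ⟨d, hd, h⟩
  have h1 := side_face_const p q hq hc f q.start_mem_support
  have h3 := hq g q.end_mem_support
  rw [side_left (i := f.1) (j := f.2) p hf,
    side_far_one (i := g.1) (j := g.2) p hg h3.2 h3.1] at h1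
  exact absurd h1 (by decide)

/-- the part of a walk after its last visit to a set -/
theorem last_visit {V : Type*} {G : SimpleGraph V} (S : V → Prop) {a b : V} (q : G.Walk a b)
    (h : ∃ w ∈ q.support, S w) : ∃ c, ∃ q₁ : G.Walk a c, ∃ q₂ : G.Walk c b, S c ∧
      q = q₁.append q₂ ∧ ∀ w ∈ q₂.support.tail, ¬ S w := by
  classical
  induction q with
  | nil =>
    obtain ⟨w, hw, hS⟩ := h
    rw [Walk.support_nil, List.mem_singleton] at hw
    subst hw
    exact ⟨_, Walk.nil, Walk.nil, hS, rfl, by simp⟩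
  | @cons a c b hadj q ih =>
    by_cases h2 : ∃ w ∈ q.support, S w
    · obtain ⟨d, q₁, q₂, hd, hq, hn⟩ := ih h2
      exact ⟨d, Walk.cons hadj q₁, q₂, hd, by rw [hq]; rfl, hn⟩
    · obtain ⟨w, hw, hS⟩ := h
      rw [Walk.support_cons, List.mem_cons] at hw
      rcases hw with rfl | hw
      · refine ⟨_, Walk.nil, Walk.cons hadj q, hS, rfl, ?_⟩
        intro z hz hSz
        rw [Walk.support_cons, List.tail_cons] at hz
        exact h2 ⟨z, hz, hSz⟩
      · exact absurd ⟨w, hw, hS⟩ h2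

/-- refined crossing: after its last vertex on `p` the walk `q` is on side `1` -/
theorem crossing_last {u v a b : ℤ × ℤ} (p : lattice.Walk u v) (q : lattice.Walk a b)
    (huv : v.2 < u.2) (hq : ∀ w ∈ q.support, v.2 ≤ w.2 ∧ w.2 ≤ u.2)
    (ha : ∀ w ∈ p.support, a.1 ≤ w.1) (hb : ∀ w ∈ p.support, w.1 ≤ b.1) :
    ∃ c, ∃ q₁ : lattice.Walk a c, ∃ q₂ : lattice.Walk c b, c ∈ p.support ∧ q = q₁.append q₂ ∧
      ∀ w ∈ q₂.support.tail, w ∉ p.support ∧ vside p w = 1 := by
  obtain ⟨w, hw1, hw2⟩ := crossing_walks p q huv hq ha hb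
  obtain ⟨c, q₁, q₂, hc, hqq, hn⟩ := last_visit (fun z => z ∈ p.support) q ⟨w, hw2, hw1⟩
  refine ⟨c, q₁, q₂, hc, hqq, ?_⟩
  have hq2 : ∀ z ∈ q₂.support, z ∈ q.support := by
    intro z hz
    rw [hqq, Walk.mem_support_append_iff]
    exact Or.inr hz
  cases q₂ with
  | nil => simp
  | @cons _ d _ hadj r =>
    rw [Walk.support_cons, List.tail_cons] at hn ⊢
    have hr : ∀ z ∈ r.support, v.2 ≤ z.2 ∧ z.2 ≤ u.2 := fun z hz =>
      hq z (hq2 z (by rw [Walk.support_cons]; exact List.mem_cons_of_mem _ hz))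
    intro z hz
    refine ⟨hn z hz, ?_⟩
    rw [vside_const p huv r hr hn z hz]
    exact vside_right p huv (hn _ r.end_mem_support) (hr _ r.end_mem_support).1
      (hr _ r.end_mem_support).2 hb

/-- walks of the configuration `ω` as walks of the lattice -/
theorem joined_walk {ω : Finset (Sym2 (ℤ × ℤ))} (hω : ∀ e ∈ ω, e ∈ lattice.edgeSet) {a b : ℤ × ℤ}
    (h : Joined ω a b) : ∃ p : lattice.Walk a b, ∀ e ∈ p.edges, e ∈ ω := by
  obtain ⟨q⟩ := h
  induction q with
  | nil => exact ⟨Walk.nil, by simp⟩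
  | @cons a c b hadj q ih =>
    obtain ⟨p, hp⟩ := ih
    rw [SimpleGraph.fromEdgeSet_adj] at hadj
    have hl : lattice.Adj a c := hω _ hadj.1
    refine ⟨Walk.cons hl p, ?_⟩
    intro e he
    rw [Walk.edges_cons, List.mem_cons] at he
    rcases he with rfl | he
    · exact hadj.1
    · exact hp e he

/-- conversely -/
theorem walk_joined {ω : Finset (Sym2 (ℤ × ℤ))} {a b : ℤ × ℤ} (p : lattice.Walk a b)
    (hp : ∀ e ∈ p.edges, e ∈ ω) : Joined ω a b := by
  induction p with
  | nil => exact Reachable.refl _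
  | @cons a c b hadj q ih =>
    have h1 : (SimpleGraph.fromEdgeSet (ω : Set (Sym2 (ℤ × ℤ)))).Adj a c := by
      rw [SimpleGraph.fromEdgeSet_adj]
      exact ⟨hp _ (by simp), hadj.ne⟩
    exact h1.reachable.trans (ih (fun e he => hp e (by simp [he])))

/-- vertices of a nontrivial walk with edges in `edgesIn S` are in `S` -/
theorem support_subset {S : Finset (ℤ × ℤ)} {a b : ℤ × ℤ} (p : lattice.Walk a b)
    (hp : ∀ e ∈ p.edges, e ∈ edgesIn S) (ha : a ∈ S) : ∀ w ∈ p.support, w ∈ S := by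
  classical
  induction p with
  | nil => simpa using ha
  | @cons a c b hadj q ih =>
    have h1 := hp s(a, c) (by simp)
    have hc : c ∈ S := by
      unfold edgesIn at h1
      have h2 := (Finset.mem_filter.mp h1).1
      exact (Finset.mk_mem_sym2_iff.mp h2).2
    intro w hw
    rw [Walk.support_cons, List.mem_cons] at hw
    rcases hw with rfl | hw
    · exact ha
    · exact ih (fun e he => hp e (by simp [he])) hc w hw

end H47Perc
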