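import Pool.Agent.Helper26.Perc.Strip

/-!
Half-plane arms and connections along a flat boundary: gluing with RSW crossings, the flat sum
rule, divergence of the number of boundary points joined to the origin, and the half-plane
one-arm exponent.
-/

set_option autoImplicit false

namespace H47Perc.StripF
open Finset Filter Topology
open Pool.Agent.Helper69.RSW (P P_mono P_map P_restrict P_congr Dep Up harris P_nonneg P_indep
  P_or_le P_le_one P_compl P_true)

/-- the half-plane one-arm probability for the upper half-plane -/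
noncomputable def aH (m : ℕ) : ℝ := armP (box (-m) m 0 m) (0, 0) m

lemma aH_nonneg (m : ℕ) : 0 ≤ aH m := armP_nonneg _ _ _
lemma aH_le_one (m : ℕ) : aH m ≤ 1 := armP_le_one _ _ _

lemma halfBox_down (m : ℕ) : halfBox 0 (-1) m = box (-m) m 0 m := by
  ext ⟨x, y⟩
  rw [mem_halfBox, mem_ball, mem_box]
  simp only [sub_zero, zero_mul, zero_add, neg_mul, one_mul, Left.neg_nonpos_iff]
  constructor
  · rintro ⟨⟨h1, h2⟩, h3⟩
    rw [abs_le] at h1 h2
    have : 0 ≤ y := by exact_mod_cast h3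
    omega
  · rintro ⟨h1, h2, h3, h4⟩
    refine ⟨⟨abs_le.2 ⟨h1, h2⟩, abs_le.2 ⟨by omega, h4⟩⟩, ?_⟩
    exact_mod_cast h3

lemma aH_eq_piH (m : ℕ) : aH m = piH 0 (-1) m := by
  rw [piH_eq (box (-m) m 0 m)]
  · rfl
  · rw [halfBox_down]
    ext ⟨x, y⟩
    rw [mem_inter, mem_box, mem_ball, abs_le, abs_le]
    simp only
    omega

lemma aH_anti {m m' : ℕ} (h : m ≤ m') : aH m' ≤ aH m := by
  rw [aH_eq_piH, aH_eq_piH]
  exact piH_anti _ _ h

/-! ### gluing -/

/-- the vertex `u` is joined to the left, right or top side of `[-m,m] × [0,m]` -/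
def Esc (m : ℤ) (u : ℤ × ℤ) (ω : Finset (Sym2 (ℤ × ℤ))) : Prop :=
  ∃ z : ℤ × ℤ, (z.1 = -m ∨ z.1 = m ∨ z.2 = m) ∧ Joined (ω ∩ edgesIn (box (-m) m 0 m)) u z

lemma esc_up (m : ℤ) (u : ℤ × ℤ) : Up (Esc m u) := by
  rintro ω ω' h ⟨z, h1, h2⟩
  exact ⟨z, h1, joined_mono (inter_subset_inter_right h) h2⟩

/-- the three crossings: left, right, top -/
def Arch (k : ℤ) (ω : Finset (Sym2 (ℤ × ℤ))) : Prop :=
  BT (-(2*k)) (-k) 0 (2*k) (ω ∩ edgesIn (box (-(2*k)) (-k) 0 (2*k))) ∧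
  BT k (2*k) 0 (2*k) (ω ∩ edgesIn (box k (2*k) 0 (2*k))) ∧
  LR (-(2*k)) (2*k) k (2*k) (ω ∩ edgesIn (box (-(2*k)) (2*k) k (2*k)))

lemma arch_up (k : ℤ) : Up (Arch k) :=
  (up_inter (up_BT _ _ _ _) _).and ((up_inter (up_BT _ _ _ _) _).and
    (up_inter (up_LR _ _ _ _) _))

/-- every vertex of the inner box with an arm is joined to the arch -/
theorem arch_hub {k : ℤ} (hk : 0 < k) {ω : Finset (Sym2 (ℤ × ℤ))} (hA : Arch k ω) :
    ∃ h : ℤ × ℤ, ∀ u ∈ box (-k) k 0 k, Esc (2*k) u ω → Joined ω h u := by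
  obtain ⟨⟨xl, xl', l1, l2, l3, l4, l5⟩, ⟨xr, xr', r1, r2, r3, r4, r5⟩,
    ⟨y, y', t1, t2, t3, t4, t5⟩⟩ := hA
  have hTS : edgesIn (box (-(2*k)) (2*k) k (2*k)) ⊆ edgesIn (box (-(2*k)) (2*k) 0 (2*k)) :=
    edgesIn_mono (box_mono (by omega) (by omega) (by omega) (by omega))
  refine ⟨(-(2*k), y), ?_⟩
  -- the hub is joined to the left and right crossings
  have hl : ∃ z, Joined ω (-(2*k), y) z ∧ Joined ω (xl, 0) z := by
    obtain ⟨z, z1, z2⟩ := crossing_meet (a := -(2*k)) (b := 2*k) (a' := -(2*k)) (b' := -k)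
      (c := 0) (d := 2*k) (by omega) (by omega) (by omega)
      (inter_subset_right.trans hTS) inter_subset_right ⟨l3, l4⟩ ⟨by omega, t2⟩ t5 l5
    exact ⟨z, joined_mono inter_subset_left z1, joined_mono inter_subset_left z2⟩
  have hr : ∃ z, Joined ω (-(2*k), y) z ∧ Joined ω (xr, 0) z := by
    obtain ⟨z, z1, z2⟩ := crossing_meet (a := -(2*k)) (b := 2*k) (a' := k) (b' := 2*k)
      (c := 0) (d := 2*k) (by omega) (by omega) (by omega)
      (inter_subset_right.trans hTS) inter_subset_right ⟨r3, r4⟩ ⟨by omega, t2⟩ t5 r5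
    exact ⟨z, joined_mono inter_subset_left z1, joined_mono inter_subset_left z2⟩
  have hl' : Joined ω (-(2*k), y) (xl, 0) := by
    obtain ⟨z, z1, z2⟩ := hl
    exact joined_trans z1 (joined_symm z2)
  have hr' : Joined ω (-(2*k), y) (xr, 0) := by
    obtain ⟨z, z1, z2⟩ := hr
    exact joined_trans z1 (joined_symm z2)
  intro u hu hE
  obtain ⟨z, hz, hj⟩ := hE
  have huS : u ∈ box (-(2*k)) (2*k) 0 (2*k) := by
    rw [mem_box] at hu ⊢; omega
  have hzS : z ∈ box (-(2*k)) (2*k) 0 (2*k) := mem_of_joined inter_subset_right hj huS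
  rw [mem_box] at hu hzS
  obtain ⟨zx, zy⟩ := z
  simp only at hz hzS
  have hjz : Joined ω (zx, zy) u := joined_mono inter_subset_left (joined_symm hj)
  rcases hz with hz | hz | hz
  · -- left side
    subst hz
    have hv : ((-(2*k), zy) : ℤ × ℤ) ∈ box (-(2*k)) (-k-1) 0 (2*k) := by
      rw [mem_box]; simp only; omega
    have hu' : u ∉ box (-(2*k)) (-k-1) 0 (2*k) := by
      rw [mem_box]; omega
    obtain ⟨w, w', w1, w2, w3, w4, w5, w6⟩ := joined_exit inter_subset_right (joined_symm hj) hv hu'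
    obtain ⟨a, b⟩ := w
    obtain ⟨a', b'⟩ := w'
    rw [mem_box] at w1 w2 w3
    simp only at w1 w2 w3
    have hab : a = -k-1 ∧ a' = -k ∧ b = b' := by
      rcases w4 with ⟨e1, e2⟩ | ⟨e1, e2⟩
      · simp only at e1 e2; omega
      · simp only at e1 e2
        rcases (abs_eq (by norm_num)).1 e2 with e3 | e3 <;> omega
    obtain ⟨rfl, rfl, rfl⟩ := hab
    have hlr : Joined (ω ∩ edgesIn (box (-(2*k)) (-k) 0 (2*k))) (-(2*k), zy) (-k, b) := by
      refine joined_trans (joined_mono ?_ w6) (joined_edge ?_)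
      · intro e he
        rw [mem_inter, mem_inter] at he
        rw [mem_inter]
        exact ⟨he.1.1, edgesIn_mono (box_mono (by omega) (by omega) (by omega) (by omega)) he.2⟩
      · rw [mem_inter, mem_edgesIn]
        refine ⟨(mem_inter.1 w5).1, ?_, ?_, w4⟩
        · rw [mem_box]; simp only; omega
        · rw [mem_box]; simp only; omega
    obtain ⟨v, v1, v2⟩ := crossing_meet (a := -(2*k)) (b := -k) (a' := -(2*k)) (b' := -k)
      (c := 0) (d := 2*k) (by omega) (by omega) (by omega) inter_subset_right inter_subset_right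
      ⟨l3, l4⟩ ⟨hzS.2.2.1, hzS.2.2.2⟩ hlr l5
    exact joined_trans hl' (joined_trans (joined_mono inter_subset_left v2)
      (joined_trans (joined_symm (joined_mono inter_subset_left v1)) hjz))
  · -- right side
    subst hz
    have hv : ((2*k, zy) : ℤ × ℤ) ∈ box (k+1) (2*k) 0 (2*k) := by
      rw [mem_box]; simp only; omega
    have hu' : u ∉ box (k+1) (2*k) 0 (2*k) := by
      rw [mem_box]; omega
    obtain ⟨w, w', w1, w2, w3, w4, w5, w6⟩ := joined_exit inter_subset_right (joined_symm hj) hv hu'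
    obtain ⟨a, b⟩ := w
    obtain ⟨a', b'⟩ := w'
    rw [mem_box] at w1 w2 w3
    simp only at w1 w2 w3
    have hab : a = k+1 ∧ a' = k ∧ b = b' := by
      rcases w4 with ⟨e1, e2⟩ | ⟨e1, e2⟩
      · simp only at e1 e2; omega
      · simp only at e1 e2
        rcases (abs_eq (by norm_num)).1 e2 with e3 | e3 <;> omega
    obtain ⟨rfl, rfl, rfl⟩ := hab
    have hlr : Joined (ω ∩ edgesIn (box a' (2*a') 0 (2*a'))) (2*a', zy) (a', b) := by
      refine joined_trans (joined_mono ?_ w6) (joined_edge ?_)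
      · intro e he
        rw [mem_inter, mem_inter] at he
        rw [mem_inter]
        exact ⟨he.1.1, edgesIn_mono (box_mono (by omega) (by omega) (by omega) (by omega)) he.2⟩
      · rw [mem_inter, mem_edgesIn]
        refine ⟨(mem_inter.1 w5).1, ?_, ?_, w4⟩
        · rw [mem_box]; simp only; omega
        · rw [mem_box]; simp only; omega
    obtain ⟨v, v1, v2⟩ := crossing_meet (a := a') (b := 2*a') (a' := a') (b' := 2*a')
      (c := 0) (d := 2*a') (by omega) (by omega) (by omega) inter_subset_right inter_subset_right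
      ⟨r3, r4⟩ ⟨w3.2.2.1, w3.2.2.2⟩ (joined_symm hlr) r5
    exact joined_trans hr' (joined_trans (joined_mono inter_subset_left v2)
      (joined_trans (joined_symm (joined_mono inter_subset_left v1))
        (joined_trans (joined_mono inter_subset_left (joined_symm hlr)) hjz)))
  · -- top side
    subst hz
    have hv : ((zx, 2*k) : ℤ × ℤ) ∈ box (-(2*k)) (2*k) (k+1) (2*k) := by
      rw [mem_box]; simp only; omega
    have hu' : u ∉ box (-(2*k)) (2*k) (k+1) (2*k) := by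
      rw [mem_box]; omega
    obtain ⟨w, w', w1, w2, w3, w4, w5, w6⟩ := joined_exit inter_subset_right (joined_symm hj) hv hu'
    obtain ⟨a, b⟩ := w
    obtain ⟨a', b'⟩ := w'
    rw [mem_box] at w1 w2 w3
    simp only at w1 w2 w3
    have hab : b = k+1 ∧ b' = k ∧ a = a' := by
      rcases w4 with ⟨e1, e2⟩ | ⟨e1, e2⟩
      · simp only at e1 e2
        rcases (abs_eq (by norm_num)).1 e2 with e3 | e3 <;> omega
      · simp only at e1 e2; omega
    obtain ⟨rfl, rfl, rfl⟩ := hab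
    have hbt : Joined (ω ∩ edgesIn (box (-(2*b')) (2*b') b' (2*b'))) (zx, 2*b') (a, b') := by
      refine joined_trans (joined_mono ?_ w6) (joined_edge ?_)
      · intro e he
        rw [mem_inter, mem_inter] at he
        rw [mem_inter]
        exact ⟨he.1.1, edgesIn_mono (box_mono (by omega) (by omega) (by omega) (by omega)) he.2⟩
      · rw [mem_inter, mem_edgesIn]
        refine ⟨(mem_inter.1 w5).1, ?_, ?_, w4⟩
        · rw [mem_box]; simp only; omega
        · rw [mem_box]; simp only; omega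
    obtain ⟨v, v1, v2⟩ := crossing_meet (a := -(2*b')) (b := 2*b') (a' := -(2*b')) (b' := 2*b')
      (c := b') (d := 2*b') (by omega) (by omega) (by omega) inter_subset_right inter_subset_right
      ⟨hzS.1, hzS.2.1⟩ ⟨t1, t2⟩ t5 (joined_symm hbt)
    exact joined_trans (joined_mono inter_subset_left v1)
      (joined_trans (joined_symm (joined_mono inter_subset_left v2))
        (joined_trans (joined_mono inter_subset_left (joined_symm hbt)) hjz))

theorem arch_glue {k : ℤ} (hk : 0 < k) {ω : Finset (Sym2 (ℤ × ℤ))} (hA : Arch k ω)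
    {u v : ℤ × ℤ} (hu : u ∈ box (-k) k 0 k) (hv : v ∈ box (-k) k 0 k)
    (eu : Esc (2*k) u ω) (ev : Esc (2*k) v ω) : Joined ω u v := by
  obtain ⟨h, hh⟩ := arch_hub hk hA
  exact joined_trans (joined_symm (hh u hu eu)) (hh v hv ev)

/-- the arch has probability bounded from below -/
lemma arch_prob {k : ℕ} {c : ℝ} (hc : 0 < c) (h4 : c ≤ pLR (4*k) k) :
    c ^ 3 ≤ perc half (box (-(2*k)) (2*k) 0 (2*k)) (Arch k) := by
  set S := box (-(2*(k:ℤ))) (2*k) 0 (2*k) with hS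
  have h2 : c ≤ pLR (2*k) k := h4.trans (pLR_anti (by omega) (by omega) _)
  have s1 : box (-(2*(k:ℤ))) (-k) 0 (2*k) ⊆ S :=
    box_mono (by omega) (by omega) (by omega) (by omega)
  have s2 : box (k:ℤ) (2*k) 0 (2*k) ⊆ S :=
    box_mono (by omega) (by omega) (by omega) (by omega)
  have s3 : box (-(2*(k:ℤ))) (2*k) k (2*k) ⊆ S :=
    box_mono (by omega) (by omega) (by omega) (by omega)
  have e1 : c ≤ perc half S (fun ω => BT (-(2*(k:ℤ))) (-k) 0 (2*k)
      (ω ∩ edgesIn (box (-(2*(k:ℤ))) (-k) 0 (2*k)))) := by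
    rw [perc_restrict s1, perc_BT]
    convert h2 using 2 <;> ring
  have e2 : c ≤ perc half S (fun ω => BT k (2*k) 0 (2*k)
      (ω ∩ edgesIn (box (k:ℤ) (2*k) 0 (2*k)))) := by
    rw [perc_restrict s2, perc_BT]
    convert h2 using 2 <;> ring
  have e3 : c ≤ perc half S (fun ω => LR (-(2*(k:ℤ))) (2*k) k (2*k)
      (ω ∩ edgesIn (box (-(2*(k:ℤ))) (2*k) k (2*k)))) := by
    rw [perc_restrict s3, perc_LR]
    convert h4 using 2 <;> ring
  have u1 := up_inter (up_BT (-(2*(k:ℤ))) (-k) 0 (2*k)) (edgesIn (box (-(2*(k:ℤ))) (-k) 0 (2*k)))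
  have u2 := up_inter (up_BT (k:ℤ) (2*k) 0 (2*k)) (edgesIn (box (k:ℤ) (2*k) 0 (2*k)))
  have u3 := up_inter (up_LR (-(2*(k:ℤ))) (2*k) k (2*k))
    (edgesIn (box (-(2*(k:ℤ))) (2*k) k (2*k)))
  have i1 := perc_harris S u2 u3
  have i2 := perc_harris S u1 (u2.and u3)
  have i3 : c * c ≤ _ := (mul_le_mul e2 e3 hc.le (perc_half_nonneg _ _)).trans i1
  have i4 : c * (c * c) ≤ _ := (mul_le_mul e1 i3 (by positivity) (perc_half_nonneg _ _)).trans i2
  calc c ^ 3 = c * (c * c) := by ring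
    _ ≤ _ := i4

/-- arms in the half-plane escape from the box -/
lemma esc_prob {k : ℕ} (hk : 0 < k) {x : ℤ} (hx : |x| ≤ k) :
    aH (3*k) ≤ perc half (box (-(2*k)) (2*k) 0 (2*k)) (Esc (2*k) (x, 0)) := by
  classical
  rw [abs_le] at hx
  set S := box (-(2*(k:ℤ))) (2*k) 0 (2*k) with hS
  set D := box (-(4*(k:ℤ))) (4*k) 0 (4*k) with hD
  have hSD : S ⊆ D := box_mono (by omega) (by omega) (by omega) (by omega)
  have e1 : aH (3*k) ≤ armP D (x, 0) (3*k) := by
    have := armP_map (transl_sym (x, 0)) (box (-((3*k:ℕ):ℤ)) ((3*k:ℕ):ℤ) 0 ((3*k:ℕ):ℤ)) (0, 0)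
      ((3*k:ℕ):ℤ)
    unfold aH
    rw [← this, box_transl]
    have e : (transl (x, 0)) (0, 0) = (x, 0) := by simp [transl]
    rw [e]
    push_cast
    apply armP_mono
    intro z hz
    rw [mem_inter, mem_box, mem_ball, abs_le, abs_le] at hz
    rw [hD, mem_box]
    omega
  refine e1.trans ?_
  have e2 : perc half S (Esc (2*k) (x, 0)) = perc half D (fun ω => Esc (2*k) (x, 0)
      (ω ∩ edgesIn S)) := (perc_restrict hSD _).symm
  rw [e2]
  unfold armP
  apply perc_half_mono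
  rintro ω hω ⟨z, hz, hj⟩
  have hj' : Joined (ω ∩ edgesIn D) (x, 0) z :=
    joined_mono (inter_subset_inter_left (edgesIn_mono inter_subset_left)) hj
  have hu : ((x, 0) : ℤ × ℤ) ∈ box (-(2*(k:ℤ)-1)) (2*k-1) 0 (2*k-1) := by
    rw [mem_box]; simp only; omega
  have hxD : ((x, 0) : ℤ × ℤ) ∈ D := by
    rw [hD, mem_box]; simp only; omega
  have hzD : z ∈ D := mem_of_joined inter_subset_right hj' hxD
  rw [hD, mem_box] at hzD
  have hzo : z ∉ box (-(2*(k:ℤ)-1)) (2*k-1) 0 (2*k-1) := by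
    rw [mem_box]
    rintro ⟨h1, h2, h3, h4⟩
    unfold AtDist at hz
    simp only [sub_zero] at hz
    rcases hz with hz | hz
    · rcases abs_cases (z.1 - x) with h' | h' <;> omega
    · rw [abs_of_nonneg h3] at hz
      omega
  obtain ⟨w, w', w1, w2, w3, w4, w5, w6⟩ := joined_exit inter_subset_right hj' hu hzo
  rw [hD, mem_box] at w3
  rw [mem_box] at w1 w2
  have hd := adj_dist w4
  rw [abs_le, abs_le] at hd
  have hw'S : w' ∈ S := by
    rw [hS, mem_box]; omega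
  refine ⟨w', ?_, ?_⟩
  · omega
  · have hwS : w ∈ S := by
      rw [hS, mem_box]; omega
    refine joined_trans (joined_mono ?_ w6) (joined_edge ?_)
    · intro e he
      rw [mem_inter, mem_inter] at he
      have : e ∈ edgesIn S :=
        edgesIn_mono (box_mono (by omega) (by omega) (by omega) (by omega)) he.2
      rw [mem_inter, mem_inter]
      exact ⟨⟨he.1.1, this⟩, this⟩
    · have : s(w, w') ∈ edgesIn S := by
        rw [mem_edgesIn]
        exact ⟨hwS, hw'S, w4⟩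
      rw [mem_inter, mem_inter]
      exact ⟨⟨(mem_inter.1 w5).1, this⟩, this⟩

/-- the RSW input -/
def RSW4 (c : ℝ) : Prop := 0 < c ∧ ∀ n : ℕ, 1 ≤ n → c ≤ pLR (4*n) n

/-- **Lower bound** for connections along a flat boundary -/
theorem flat_lower {c : ℝ} (hc : RSW4 c) {k : ℕ} (hk : 0 < k) {x : ℤ} (hx : |x| ≤ k) :
    c ^ 3 * aH (3*k) ^ 2 ≤ pB (2*k) (2*k) (x, 0) := by
  have h1 := arch_prob hc.1 (hc.2 k hk)
  have h2 := esc_prob hk hx
  have h3 := esc_prob hk (x := 0) (by simp)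
  set S := box (-(2*(k:ℤ))) (2*k) 0 (2*k) with hS
  have i1 := perc_harris S (esc_up (2*k) (0, 0)) (esc_up (2*k) (x, 0))
  have i2 := perc_harris S (arch_up k) ((esc_up (2*k) (0, 0)).and (esc_up (2*k) (x, 0)))
  have a0 := aH_nonneg (3*k)
  have i3 : aH (3*k) * aH (3*k) ≤ _ := (mul_le_mul h3 h2 a0 (perc_half_nonneg _ _)).trans i1
  have i4 : c ^ 3 * (aH (3*k) * aH (3*k)) ≤ _ :=
    (mul_le_mul h1 i3 (mul_nonneg a0 a0) (perc_half_nonneg _ _)).trans i2
  calc c ^ 3 * aH (3*k) ^ 2 = c ^ 3 * (aH (3*k) * aH (3*k)) := by ring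
    _ ≤ _ := i4
    _ ≤ pB (2*k) (2*k) (x, 0) := by
      unfold pB
      push_cast
      apply perc_half_mono
      rintro ω hω ⟨hA, h0, hx'⟩
      rw [abs_le] at hx
      refine arch_glue (by exact_mod_cast hk) hA ?_ ?_ h0 hx'
      · rw [mem_box]; simp only; omega
      · rw [mem_box]; simp only; omega

/-! ### upper bounds -/

/-- `(a,b) ↦ (a + x, m - b)` -/
def flipTop (x m : ℤ) : ℤ × ℤ ≃ ℤ × ℤ where
  toFun z := (z.1 + x, m - z.2)
  invFun z := (z.1 - x, m - z.2)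
  left_inv z := by ext <;> simp
  right_inv z := by ext <;> simp

/-- `(a,b) ↦ (m - b, y + a)` -/
def flipRight (m y : ℤ) : ℤ × ℤ ≃ ℤ × ℤ where
  toFun z := (m - z.2, y + z.1)
  invFun z := (z.2 - y, m - z.1)
  left_inv z := by ext <;> simp
  right_inv z := by ext <;> simp

lemma flipTop_sym (x m : ℤ) : IsSym (flipTop x m) := by
  constructor
  · rintro ⟨a, b⟩ ⟨c, d⟩
    unfold lattice flipTop
    simp only [Equiv.coe_fn_mk, add_left_inj, sub_sub_sub_cancel_left, add_sub_add_right_eq_sub,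
      sub_right_inj]
    rw [abs_sub_comm d b]
  · rintro ⟨a, b⟩ ⟨c, d⟩
    left
    simp only [flipTop, Equiv.coe_fn_mk, add_sub_add_right_eq_sub, sub_sub_sub_cancel_left,
      true_and]
    exact abs_sub_comm _ _

lemma flipRight_sym (m y : ℤ) : IsSym (flipRight m y) := by
  constructor
  · rintro ⟨a, b⟩ ⟨c, d⟩
    unfold lattice flipRight
    simp only [Equiv.coe_fn_mk, sub_sub_sub_cancel_left, sub_right_inj, add_sub_add_left_eq_sub,
      add_right_inj]
    rw [abs_sub_comm d b]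
    tauto
  · rintro ⟨a, b⟩ ⟨c, d⟩
    right
    simp only [flipRight, Equiv.coe_fn_mk, sub_sub_sub_cancel_left, add_sub_add_left_eq_sub,
      and_true]
    exact abs_sub_comm _ _

lemma armP_top {S : Finset (ℤ × ℤ)} {x m : ℤ} (k : ℕ) (hS : ∀ z ∈ S, z.2 ≤ m) :
    armP S (x, m) k ≤ aH k := by
  unfold aH
  rw [← armP_map (flipTop_sym x m) (box (-(k:ℤ)) k 0 k) (0, 0) k]
  have e : flipTop x m (0, 0) = (x, m) := by simp [flipTop]
  rw [e]
  apply armP_mono
  intro z hz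
  rw [mem_inter, mem_ball, abs_le, abs_le] at hz
  have := hS z hz.1
  rw [mem_map_equiv, mem_box]
  simp only [flipTop, Equiv.coe_fn_symm_mk]
  omega

lemma armP_right {S : Finset (ℤ × ℤ)} {m y : ℤ} (k : ℕ) (hS : ∀ z ∈ S, z.1 ≤ m) :
    armP S (m, y) k ≤ aH k := by
  unfold aH
  rw [← armP_map (flipRight_sym m y) (box (-(k:ℤ)) k 0 k) (0, 0) k]
  have e : flipRight m y (0, 0) = (m, y) := by simp [flipRight]
  rw [e]
  apply armP_mono
  intro z hz
  rw [mem_inter, mem_ball, abs_le, abs_le] at hz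
  have := hS z hz.1
  rw [mem_map_equiv, mem_box]
  simp only [flipRight, Equiv.coe_fn_symm_mk]
  omega

lemma armP_bot {S : Finset (ℤ × ℤ)} (k : ℕ) (hS : ∀ z ∈ S, 0 ≤ z.2) :
    armP S (0, 0) k ≤ aH k := by
  unfold aH
  apply armP_mono
  intro z hz
  rw [mem_inter, mem_ball, abs_le, abs_le] at hz
  have := hS z hz.1
  rw [mem_box]
  simp only [sub_zero] at hz
  omega

/-- **Upper bound** from the flat sum rule -/
theorem flat_upper (hF : FlatRule) (k : ℕ) :
    2 + ∑ x ∈ Finset.Icc (1:ℤ) ((2*k+1:ℕ):ℤ), pB (2*k+1) (2*k+1) (x, 0)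
      ≤ (6*k+5) * aH k ^ 2 := by
  rw [← hF]
  have hbox : ∀ z ∈ box (-((2*k+1:ℕ):ℤ)) ((2*k+1:ℕ):ℤ) 0 ((2*k+1:ℕ):ℤ),
      0 ≤ z.2 ∧ z.1 ≤ ((2*k+1:ℕ):ℤ) ∧ z.2 ≤ ((2*k+1:ℕ):ℤ) := by
    intro z hz
    rw [mem_box] at hz
    omega
  have h0 := aH_nonneg k
  have h1 : ∀ x ∈ Finset.Icc (-((2*k+1:ℕ):ℤ)) ((2*k+1:ℕ):ℤ),
      pB (2*k+1) (2*k+1) (x, ((2*k+1:ℕ):ℤ)) ≤ aH k ^ 2 := by
    intro x _
    unfold pB
    refine (perc_joined_le (k := k) (by omega) (Or.inr ?_)).trans ?_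
    · simp only [sub_zero]
      rw [abs_of_nonneg (by omega)]
      push_cast; omega
    · rw [sq]
      exact mul_le_mul (armP_bot k (fun z hz => (hbox z hz).1))
        (armP_top k (fun z hz => (hbox z hz).2.2)) (armP_nonneg _ _ _) h0
  have h2 : ∀ y ∈ Finset.Icc (0:ℤ) ((2*k+1:ℕ):ℤ),
      pB (2*k+1) (2*k+1) (((2*k+1:ℕ):ℤ), y) ≤ aH k ^ 2 := by
    intro y _
    unfold pB
    refine (perc_joined_le (k := k) (by omega) (Or.inl ?_)).trans ?_
    · simp only [sub_zero]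
      rw [abs_of_nonneg (by omega)]
      push_cast; omega
    · rw [sq]
      exact mul_le_mul (armP_bot k (fun z hz => (hbox z hz).1))
        (armP_right k (fun z hz => (hbox z hz).2.1)) (armP_nonneg _ _ _) h0
  have s1 := sum_le_sum h1
  have s2 := sum_le_sum h2
  rw [sum_const, nsmul_eq_mul] at s1 s2
  have c1 : (#(Finset.Icc (-((2*k+1:ℕ):ℤ)) ((2*k+1:ℕ):ℤ)) : ℝ) = 4*k+3 := by
    rw [Int.card_Icc]
    have : (((2*k+1:ℕ):ℤ) + 1 - -((2*k+1:ℕ):ℤ)).toNat = 4*k+3 := by omega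
    rw [this]; push_cast; ring
  have c2 : (#(Finset.Icc (0:ℤ) ((2*k+1:ℕ):ℤ)) : ℝ) = 2*k+2 := by
    rw [Int.card_Icc]
    have : (((2*k+1:ℕ):ℤ) + 1 - 0).toNat = 2*k+2 := by omega
    rw [this]; push_cast; ring
  rw [c1] at s1
  rw [c2] at s2
  calc _ ≤ (4*(k:ℝ)+3) * aH k ^ 2 + (2*k+2) * aH k ^ 2 := add_le_add s1 s2
    _ = _ := by ring

/-- a lower bound for the half-plane one-arm probability -/
theorem aH_sq_lower (hF : FlatRule) {k : ℕ} (hk : 0 < k) : 1 / (6 * (k:ℝ)) ≤ aH k ^ 2 := by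
  have h := flat_upper hF k
  have h1 : 0 ≤ ∑ x ∈ Finset.Icc (1:ℤ) ((2*k+1:ℕ):ℤ), pB (2*k+1) (2*k+1) (x, 0) :=
    sum_nonneg (fun x _ => pB_nonneg _ _ _)
  have hk1 : (1:ℝ) ≤ k := by exact_mod_cast hk
  have h2 : 2 ≤ (6*(k:ℝ)+5) * aH k ^ 2 := by linarith
  rw [div_le_iff₀ (by positivity)]
  have h3 : 0 ≤ aH k ^ 2 := sq_nonneg _
  nlinarith

/-! ### the number of boundary points joined to the origin diverges -/

lemma pB_le_stP' {M n n' : ℕ} (h : n ≤ n') (z : ℤ × ℤ) : pB M n z ≤ stP n' z :=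
  (pB_mono le_rfl h z).trans (pB_le_stP M n' z)

theorem bot_lower {c : ℝ} (hc : RSW4 c) (hF : FlatRule) (n : ℕ) :
    c ^ 3 / 18 * ∑ x ∈ Finset.range (n/2), 1 / ((x:ℝ) + 1) ≤ ∑' x : ℕ, stP n ((x:ℤ) + 1, 0) := by
  have hc0 := hc.1
  calc c ^ 3 / 18 * ∑ x ∈ Finset.range (n/2), 1 / ((x:ℝ) + 1)
      ≤ ∑ x ∈ Finset.range (n/2), stP n ((x:ℤ) + 1, 0) := by
        rw [mul_sum]
        apply sum_le_sum
        intro x hx
        rw [mem_range] at hx
        have h1 := flat_lower hc (k := x+1) (by omega) (x := ((x:ℤ) + 1)) (by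
          rw [abs_of_nonneg (by omega)]; push_cast; exact le_refl _)
        have h2 := aH_sq_lower hF (k := 3*(x+1)) (by omega)
        have h3 := pB_le_stP' (M := 2*(x+1)) (n := 2*(x+1)) (n' := n) (by omega)
          ((x:ℤ) + 1, 0)
        refine le_trans ?_ (h1.trans h3)
        calc c ^ 3 / 18 * (1 / ((x:ℝ) + 1)) = c ^ 3 * (1 / (6 * ((3*(x+1):ℕ):ℝ))) := by
              push_cast
              have : (x:ℝ) + 1 ≠ 0 := by positivity
              field_simp
              ring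
          _ ≤ _ := mul_le_mul_of_nonneg_left h2 (by positivity)
    _ ≤ _ := (summable_stP_nat n 0).sum_le_tsum _ (fun x _ => stP_nonneg _ _)

/-- **The expected number of points of the bottom side of the strip joined to the origin tends to
infinity.** -/
theorem bot_tendsto {c : ℝ} (hc : RSW4 c) (hF : FlatRule) :
    Tendsto (fun n : ℕ => ∑' x : ℕ, stP n ((x:ℤ) + 1, 0)) atTop atTop := by
  have hc0 := hc.1
  have h1 : Tendsto (fun n : ℕ => ∑ x ∈ Finset.range n, 1 / ((x:ℝ) + 1)) atTop atTop :=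
    Real.tendsto_sum_range_one_div_nat_succ_atTop
  have h2 : Tendsto (fun n : ℕ => n / 2) atTop atTop :=
    tendsto_atTop_atTop.2 (fun b => ⟨2*b, fun a ha => by omega⟩)
  have h3 := (h1.comp h2).const_mul_atTop (show 0 < c ^ 3 / 18 by positivity)
  exact tendsto_atTop_mono (fun n => bot_lower hc hF n) h3

/-- the expected number of vertices of the top side of the strip joined to the origin -/
noncomputable def topN (n : ℕ) : ℝ := ∑' x : ℤ, stP n (x, n)

/-- the expected number of vertices of the bottom side of the strip joined to the origin -/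
noncomputable def botN (n : ℕ) : ℝ := ∑' x : ℤ, stP n (x, 0)

lemma stP_origin (n : ℕ) : stP n (0, 0) = 1 := by
  apply le_antisymm (stP_le_one _ _)
  refine le_trans ?_ (pB_le_stP 0 n (0, 0))
  unfold pB
  rw [Pool.Agent.Helper69.RSW.perc_half_eq, ← P_true (edgesIn (box (-((0:ℕ):ℤ)) ((0:ℕ):ℤ) 0 n))]
  exact P_mono (fun ω _ _ => joined_refl _ _)

lemma botN_eq (n : ℕ) : botN n = 1 + 2 * ∑' x : ℕ, stP n ((x:ℤ) + 1, 0) := by
  unfold botN
  have h1 : Summable (fun x : ℕ => stP n ((x:ℤ), 0)) := by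
    rw [← summable_nat_add_iff 1]
    have := summable_stP_nat n 0
    simpa using this
  have h2 : Summable (fun x : ℕ => stP n (-((x:ℤ) + 1), 0)) := by
    have := summable_stP_nat n 0
    refine this.congr (fun x => ?_)
    exact (stP_neg n _ _).symm
  rw [tsum_of_nat_of_neg_add_one (f := fun x : ℤ => stP n (x, 0)) h1 h2, h1.tsum_eq_zero_add]
  have e : ∀ x : ℕ, stP n (-((x:ℤ) + 1), 0) = stP n ((x:ℤ) + 1, 0) := fun x => stP_neg n _ _
  simp_rw [e]
  have : stP n (((0:ℕ):ℤ), 0) = 1 := by simpa using stP_origin n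
  rw [this]
  push_cast
  ring

/-- **Exact relation between the two sides of a strip.** -/
theorem strip_identity (hF : FlatRule) (n : ℕ) : topN n = 3/2 + botN n / 2 := by
  rw [botN_eq]
  unfold topN
  rw [strip_rule hF n]
  ring

theorem botN_tendsto {c : ℝ} (hc : RSW4 c) (hF : FlatRule) : Tendsto botN atTop atTop := by
  have h := bot_tendsto hc hF
  have h2 := tendsto_atTop_add_const_left atTop 1 (h.const_mul_atTop (show (0:ℝ) < 2 by norm_num))
  refine h2.congr (fun n => ?_)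
  rw [botN_eq]

/-- **The ratio tends to one half.** -/
theorem strip_ratio {c : ℝ} (hc : RSW4 c) (hF : FlatRule) :
    Tendsto (fun n => topN n / botN n) atTop (𝓝 (1/2)) := by
  have h := botN_tendsto hc hF
  have h1 : Tendsto (fun n => 3/2 * (botN n)⁻¹ + 1/2) atTop (𝓝 (3/2 * 0 + 1/2)) :=
    ((tendsto_inv_atTop_zero.comp h).const_mul _).add_const _
  rw [mul_zero, zero_add] at h1
  refine h1.congr' ?_
  filter_upwards [h.eventually_gt_atTop 0] with n hn
  rw [strip_identity hF n]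
  field_simp

/-! ### the exponent -/

theorem aH_sum_lower {c : ℝ} (hc : RSW4 c) (hF : FlatRule) (k : ℕ) :
    2 + c ^ 3 * ∑ x ∈ Finset.range k, aH (3*(x+1)) ^ 2 ≤ (6*k+5) * aH k ^ 2 := by
  refine le_trans ?_ (flat_upper hF k)
  rw [mul_sum]
  have hc0 := hc.1
  have h1 : ∀ x ∈ Finset.range k, c ^ 3 * aH (3*(x+1)) ^ 2
      ≤ pB (2*k+1) (2*k+1) ((x:ℤ) + 1, 0) := by
    intro x hx
    rw [mem_range] at hx
    have h1 := flat_lower hc (k := x+1) (by omega) (x := ((x:ℤ) + 1)) (by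
      rw [abs_of_nonneg (by omega)]; push_cast; exact le_refl _)
    exact h1.trans (pB_mono (by omega) (by omega) _)
  have h2 := sum_le_sum h1
  refine add_le_add_right (h2.trans ?_) 2
  have h3 : ∑ x ∈ Finset.range k, pB (2*k+1) (2*k+1) ((x:ℤ) + 1, 0)
      = ∑ x ∈ (Finset.range k).image (fun a : ℕ => (a:ℤ) + 1), pB (2*k+1) (2*k+1) (x, 0) := by
    rw [sum_image]
    intro a _ b _ h
    simpa using h
  rw [h3]
  apply sum_le_sum_of_subset_of_nonneg
  · intro x hx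
    rw [mem_image] at hx
    obtain ⟨a, ha, rfl⟩ := hx
    rw [mem_range] at ha
    rw [Finset.mem_Icc]
    push_cast
    omega
  · intro x _ _
    exact pB_nonneg _ _ _

/-- comparison of sums of a decreasing sequence -/
lemma sum_three {f : ℕ → ℝ} (hf : Antitone f) (h0 : ∀ n, 0 ≤ f n) (h1 : ∀ n, f n ≤ 1) (k : ℕ) :
    ∑ x ∈ Finset.range k, f (x+1) - 2 ≤ 3 * ∑ x ∈ Finset.range k, f (3*(x+1)) := by
  have key : ∀ k : ℕ, ∑ x ∈ Finset.range (3*k+2), f (x+1)
      ≤ 2 + 3 * ∑ x ∈ Finset.range k, f (3*(x+1)) := by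
    intro k
    induction k with
    | zero =>
      simp only [mul_zero, zero_add, sum_range_succ, range_zero, sum_empty]
      have := h1 1
      have := h1 2
      norm_num
      linarith
    | succ k ih =>
      rw [show 3*(k+1)+2 = 3*k+2+1+1+1 by ring, sum_range_succ, sum_range_succ, sum_range_succ,
        sum_range_succ (fun x => f (3*(x+1)))]
      have i1 : f (3*k+2+1) ≤ f (3*(k+1)) := hf (by omega)
      have i2 : f (3*k+2+1+1) ≤ f (3*(k+1)) := hf (by omega)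
      have i3 : f (3*k+2+1+1+1) ≤ f (3*(k+1)) := hf (by omega)
      linarith
  have h := key k
  have h2 : ∑ x ∈ Finset.range k, f (x+1) ≤ ∑ x ∈ Finset.range (3*k+2), f (x+1) :=
    sum_le_sum_of_subset_of_nonneg (by
      intro x hx; rw [mem_range] at hx ⊢; omega) (fun x _ _ => h0 _)
  linarith

/-- the growth lemma -/
lemma growth_exponent {f : ℕ → ℝ} {a : ℝ} (ha : 0 < a) (ha1 : a ≤ 1) (h0 : ∀ n, 0 ≤ f n)
    (h : ∀ k : ℕ, 1 ≤ k → a * (1 + ∑ x ∈ Finset.range k, f (x+1)) ≤ k * f k) (k : ℕ) :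
    ((k:ℝ) + 1) ^ a ≤ 1 + ∑ x ∈ Finset.range k, f (x+1) := by
  induction k with
  | zero => simp
  | succ k ih =>
    set G := 1 + ∑ x ∈ Finset.range k, f (x+1) with hG
    have h1 := h (k+1) (by omega)
    rw [sum_range_succ, ← add_assoc, ← hG] at h1 ⊢
    push_cast at h1 ⊢
    have hk : (0:ℝ) < (k:ℝ) + 1 := by positivity
    have hG1 : 1 ≤ G := by
      rw [hG]
      have : 0 ≤ ∑ x ∈ Finset.range k, f (x+1) := sum_nonneg (fun x _ => h0 _)
      linarith
    -- f (k+1) ≥ a G / (k+1)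
    have h2 : a * G / (k+1) ≤ f (k+1) := by
      rw [div_le_iff₀ hk]
      have : a * G ≤ a * (G + f (k+1)) := by nlinarith [h0 (k+1)]
      linarith
    have h3 : ((k:ℝ) + 1 + 1) ^ a ≤ ((k:ℝ) + 1) ^ a * (1 + a / (k+1)) := by
      have e : (k:ℝ) + 1 + 1 = (k+1) * (1 + 1/(k+1)) := by field_simp
      rw [e, Real.mul_rpow hk.le (by positivity)]
      apply mul_le_mul_of_nonneg_left _ (by positivity)
      have := rpow_one_add_le_one_add_mul_self (s := 1/((k:ℝ)+1)) (p := a)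
        (by have : (0:ℝ) ≤ 1/((k:ℝ)+1) := by positivity
            linarith) ha.le ha1
      calc (1 + 1/((k:ℝ)+1)) ^ a ≤ 1 + a * (1/((k:ℝ)+1)) := this
        _ = 1 + a/(k+1) := by ring
    calc ((k:ℝ) + 1 + 1) ^ a ≤ ((k:ℝ) + 1) ^ a * (1 + a / (k+1)) := h3
      _ ≤ G * (1 + a / (k+1)) := mul_le_mul_of_nonneg_right ih (by positivity)
      _ = G + a * G / (k+1) := by ring
      _ ≤ G + f (k+1) := by linarith

/-- **The half-plane one-arm probability decays more slowly than `n^{-1/2}` by a power.** -/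
theorem aH_exponent {c : ℝ} (hc : RSW4 c) (hF : FlatRule) :
    ∃ a : ℝ, 0 < a ∧ ∀ k : ℕ, 1 ≤ k → a * (k:ℝ) ^ (-(1/2) + a) ≤ aH k := by
  have hc0 := hc.1
  have hc1 : c ≤ 1 := (hc.2 1 le_rfl).trans (perc_half_le_one _ _)
  have hc3 : c ^ 3 ≤ 1 := pow_le_one₀ hc0.le hc1
  set f : ℕ → ℝ := fun n => aH n ^ 2 with hf
  have hanti : Antitone f := by
    intro m n h
    exact pow_le_pow_left₀ (aH_nonneg _) (aH_anti h) 2
  have hf0 : ∀ n, 0 ≤ f n := fun n => sq_nonneg _
  have hf1 : ∀ n, f n ≤ 1 := fun n => pow_le_one₀ (aH_nonneg _) (aH_le_one _)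
  set a := c ^ 3 / 33 with ha
  have ha0 : 0 < a := by positivity
  have ha1 : a ≤ 1 := by rw [ha]; linarith
  have hrec : ∀ k : ℕ, 1 ≤ k → a * (1 + ∑ x ∈ Finset.range k, f (x+1)) ≤ k * f k := by
    intro k hk
    have h1 := aH_sum_lower hc hF k
    have h2 := sum_three hanti hf0 hf1 k
    have hk1 : (1:ℝ) ≤ k := by exact_mod_cast hk
    have h3 : c ^ 3 * (1 + ∑ x ∈ Finset.range k, f (x+1)) / 3
        ≤ 2 + c ^ 3 * ∑ x ∈ Finset.range k, f (3*(x+1)) := by
      have := mul_le_mul_of_nonneg_left h2 (show 0 ≤ c ^ 3 by positivity)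
      nlinarith
    have h4 : (6*(k:ℝ)+5) * f k ≤ 11 * (k * f k) := by nlinarith [hf0 k]
    have h5 : c ^ 3 * (1 + ∑ x ∈ Finset.range k, f (x+1)) / 3 ≤ 11 * (k * f k) :=
      h3.trans (h1.trans h4)
    rw [ha]
    linarith
  have hg := growth_exponent ha0 ha1 hf0 hrec
  refine ⟨a/2, by positivity, fun k hk => ?_⟩
  have hk0 : (0:ℝ) < k := by exact_mod_cast hk
  have h1 := hrec k hk
  have h2 := hg k
  have h3 : (k:ℝ) ^ a ≤ ((k:ℝ) + 1) ^ a := Real.rpow_le_rpow hk0.le (by linarith) ha0.le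
  have h4 : a * (k:ℝ) ^ a / k ≤ aH k ^ 2 := by
    rw [div_le_iff₀ hk0]
    calc a * (k:ℝ) ^ a ≤ a * (1 + ∑ x ∈ Finset.range k, f (x+1)) :=
          mul_le_mul_of_nonneg_left (h3.trans h2) ha0.le
      _ ≤ k * f k := h1
      _ = aH k ^ 2 * k := by rw [hf]; ring
  have h5 : (a/2 * (k:ℝ) ^ (-(1/2) + a/2)) ^ 2 ≤ aH k ^ 2 := by
    refine le_trans ?_ h4
    have e : ((k:ℝ) ^ (-(1/2) + a/2)) ^ 2 = (k:ℝ) ^ a / k := by
      rw [← Real.rpow_natCast, ← Real.rpow_mul hk0.le]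
      have : (-(1/2) + a/2) * ((2:ℕ):ℝ) = a - 1 := by push_cast; ring
      rw [this, Real.rpow_sub_one hk0.ne']
    rw [mul_pow, e]
    have h6 : 0 ≤ (k:ℝ) ^ a / k := by positivity
    have h7 : (a/2)^2 ≤ a := by nlinarith
    calc (a/2)^2 * ((k:ℝ) ^ a / k) ≤ a * ((k:ℝ) ^ a / k) := mul_le_mul_of_nonneg_right h7 h6
      _ = _ := by ring
  exact (sq_le_sq₀ (by positivity) (aH_nonneg k)).1 h5

/-- consequence for the quadrant, given the isotropy theorem -/
theorem piQ_exponent {c C : ℝ} (hc : RSW4 c) (hF : FlatRule)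
    (hB : ∀ n : ℕ, 1 ≤ n → n * piQ n * piH 0 (-1) n ≤ C) :
    ∃ a C' : ℝ, 0 < a ∧ 0 < C' ∧ ∀ n : ℕ, 1 ≤ n → piQ n ≤ C' * (n:ℝ) ^ (-(1/2) - a) := by
  obtain ⟨a, ha, h⟩ := aH_exponent hc hF
  have hC0 : 0 ≤ C := by
    have := hB 1 le_rfl
    have h2 : 0 ≤ ((1:ℕ):ℝ) * piQ 1 * piH 0 (-1) 1 :=
      mul_nonneg (mul_nonneg (by norm_num) (piQ_nonneg 1)) (piH_nonneg _ _ 1)
    exact h2.trans this
  refine ⟨a, (C+1)/a, ha, by positivity, fun n hn => ?_⟩
  have hn0 : (0:ℝ) < n := by exact_mod_cast hn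
  have h1 := hB n hn
  have h2 := h n hn
  rw [aH_eq_piH] at h2
  have h3 : n * piQ n * (a * (n:ℝ) ^ (-(1/2) + a)) ≤ C :=
    (mul_le_mul_of_nonneg_left h2 (mul_nonneg hn0.le (piQ_nonneg n))).trans h1
  have e : (n:ℝ) ^ (-(1/2) - a) * (n * (n:ℝ) ^ (-(1/2) + a)) = 1 := by
    rw [← Real.rpow_one_add' hn0.le (by linarith), ← Real.rpow_add hn0]
    ring_nf
    simp
  have hp : 0 < (n:ℝ) ^ (-(1/2) - a) := by positivity
  calc piQ n = piQ n * ((n:ℝ) ^ (-(1/2) - a) * (n * (n:ℝ) ^ (-(1/2) + a))) := by rw [e, mul_one]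
    _ = (n * piQ n * (a * (n:ℝ) ^ (-(1/2) + a))) / a * (n:ℝ) ^ (-(1/2) - a) := by
        field_simp
    _ ≤ (C+1) / a * (n:ℝ) ^ (-(1/2) - a) := by
        apply mul_le_mul_of_nonneg_right _ hp.le
        apply div_le_div_of_nonneg_right _ ha.le
        linarith

end H47Perc.StripF
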