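import Pool.Agent.Helper26.Perc.Planar

/-!
# Mod 2 Jordan lemma for chains (finite sets of lattice edges)
-/

namespace H47Perc

open SimpleGraph Finset

/-- the side of the face `f` with respect to the finite set of edges `G` -/
noncomputable def cside (G : Finset (Sym2 (ℤ × ℤ))) (f : ℤ × ℤ) : ZMod 2 := ∑ e ∈ G, eside e f

/-- `w` is an endpoint of an edge of `G` -/
def CVert (G : Finset (Sym2 (ℤ × ℤ))) (w : ℤ × ℤ) : Prop := ∃ e ∈ G, w ∈ e

/-- parity of the degree of `w` in `G` -/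
noncomputable def cdeg (G : Finset (Sym2 (ℤ × ℤ))) (w : ℤ × ℤ) : ZMod 2 := ∑ e ∈ G, par (w ∈ e)

open Classical in
theorem cdeg_eq (G : Finset (Sym2 (ℤ × ℤ))) (w : ℤ × ℤ) :
    cdeg G w = (((G.filter (fun e => w ∈ e)).card : ℕ) : ZMod 2) := by
  unfold cdeg
  rw [Finset.card_filter, Nat.cast_sum]
  apply sum_congr rfl
  intro e _
  by_cases h : w ∈ e
  · rw [par_true h, if_pos h, Nat.cast_one]
  · rw [par_false h, if_neg h, Nat.cast_zero]

theorem ecases (e : Sym2 (ℤ × ℤ)) (he : e ∈ lattice.edgeSet) :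
    (∃ x y, e = s((x, y), (x, y+1))) ∨ (∃ x y, e = s((x, y), (x+1, y))) := by
  induction e using Sym2.ind with
  | _ u v =>
    rw [SimpleGraph.mem_edgeSet] at he
    rcases adj_edge_cases he with ⟨x, y, h, _⟩ | ⟨x, y, h, _⟩
    · exact Or.inl ⟨x, y, h⟩
    · exact Or.inr ⟨x, y, h⟩

/-- (a) crossing a vertical edge -/
theorem cside_right {G : Finset (Sym2 (ℤ × ℤ))} (hG : ∀ e ∈ G, e ∈ lattice.edgeSet) {i j : ℤ}
    (h : s((i+1, j), (i+1, j+1)) ∉ G) : cside G (i+1, j) = cside G (i, j) := by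
  unfold cside
  apply sum_congr rfl
  intro e he
  rcases ecases e (hG e he) with ⟨x, y, rfl⟩ | ⟨x, y, rfl⟩
  · rw [eside_vert, eside_vert]
    congr 1
    rw [eq_iff_iff]
    constructor
    · rintro ⟨rfl, h2⟩
      refine ⟨rfl, ?_⟩
      by_contra h3
      have : x = i + 1 := by omega
      subst this
      exact h he
    · rintro ⟨rfl, h2⟩
      exact ⟨rfl, by omega⟩
  · rw [eside_hor, eside_hor]

/-- the finite set of endpoints of the edges -/
noncomputable def cverts (G : Finset (Sym2 (ℤ × ℤ))) : Finset (ℤ × ℤ) :=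
  open Classical in G.biUnion (fun e => e.toFinset)

theorem mem_cverts {G : Finset (Sym2 (ℤ × ℤ))} {w : ℤ × ℤ} : w ∈ cverts G ↔ CVert G w := by
  classical
  unfold cverts CVert
  rw [Finset.mem_biUnion]
  simp only [Sym2.mem_toFinset]

theorem sum_pair {G : Finset (Sym2 (ℤ × ℤ))} {u v : ℤ × ℤ} (he : s(u, v) ∈ G) (huv : u ≠ v)
    (g : ℤ × ℤ → ZMod 2) : ∑ w ∈ cverts G, par (w ∈ s(u, v)) * g w = g u + g v := by
  classical
  have hu : u ∈ cverts G := mem_cverts.mpr ⟨_, he, by simp⟩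
  have hv : v ∈ cverts G := mem_cverts.mpr ⟨_, he, by simp⟩
  have hsub : ({u, v} : Finset (ℤ × ℤ)) ⊆ cverts G := by
    intro w hw
    rw [Finset.mem_insert, Finset.mem_singleton] at hw
    rcases hw with rfl | rfl
    · exact hu
    · exact hv
  rw [← Finset.sum_subset hsub]
  · rw [Finset.sum_pair huv, par_true (by simp : u ∈ s(u, v)), par_true (by simp : v ∈ s(u, v)),
      one_mul, one_mul]
  · intro w _ hw
    rw [Finset.mem_insert, Finset.mem_singleton] at hw
    rw [par_false (by rw [Sym2.mem_iff]; exact hw), zero_mul]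

theorem single_up {u v : ℤ × ℤ} (h : lattice.Adj u v) (i j : ℤ) :
    eside s(u, v) (i, j) + eside s(u, v) (i, j-1)
      = par (s(u, v) = s((i, j), (i+1, j))) + (lpar i j u + lpar i j v) := by
  have h1 := side_up (Walk.cons h Walk.nil) i j
  rw [side_cons, side_cons, side_nil, side_nil, ecount_cons, ecount_nil] at h1
  linear_combination h1

/-- (b) crossing a horizontal edge of a row without odd vertices -/
theorem cside_up {G : Finset (Sym2 (ℤ × ℤ))} (hG : ∀ e ∈ G, e ∈ lattice.edgeSet) {i j : ℤ}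
    (hdeg : ∀ x, cdeg G (x, j) = 0) (h : s((i, j), (i+1, j)) ∉ G) :
    cside G (i, j) = cside G (i, j-1) := by
  have h1 : cside G (i, j) + cside G (i, j-1) = 0 := by
    unfold cside
    rw [← sum_add_distrib]
    have h2 : ∀ e ∈ G, eside e (i, j) + eside e (i, j-1)
        = ∑ w ∈ cverts G, par (w ∈ e) * lpar i j w := by
      intro e he
      have he' := hG e he
      induction e using Sym2.ind with
      | _ u v =>
        rw [SimpleGraph.mem_edgeSet] at he'
        rw [single_up he', sum_pair he he'.ne, par_false, zero_add]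
        intro h3
        rw [h3] at he
        exact h he
    rw [sum_congr rfl h2, sum_comm]
    apply sum_eq_zero
    intro w _
    rw [← sum_mul]
    by_cases hw : w.2 = j
    · have : w = (w.1, j) := by rw [← hw]
      have h4 : ∑ e ∈ G, par (w ∈ e) = 0 := by rw [this]; exact hdeg w.1
      rw [h4, zero_mul]
    · unfold lpar
      rw [par_false (fun h => hw h.1), mul_zero]
  have h2 := zmod2_add_self (cside G (i, j-1))
  linear_combination h1 - h2

theorem cside_left {G : Finset (Sym2 (ℤ × ℤ))} {i j : ℤ} (h : ∀ w, CVert G w → i < w.1) :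
    cside G (i, j) = 0 := by
  unfold cside
  apply sum_eq_zero
  intro e he
  apply par_false
  rintro ⟨x, hx, rfl⟩
  have := h (x, j) ⟨_, he, by simp⟩
  simp only at this hx
  omega

/-- parity of the number of vertical edges of `G` between the rows `j` and `j+1` -/
noncomputable def crow (G : Finset (Sym2 (ℤ × ℤ))) (j : ℤ) : ZMod 2 :=
  ∑ e ∈ G, par (∃ x, e = s((x, j), (x, j+1)))

open Classical in
theorem crow_eq (G : Finset (Sym2 (ℤ × ℤ))) (j : ℤ) :
    crow G j = (((G.filter (fun e => ∃ x, e = s((x, j), (x, j+1)))).card : ℕ) : ZMod 2) := by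
  unfold crow
  rw [Finset.card_filter, Nat.cast_sum]
  apply sum_congr rfl
  intro e _
  by_cases h : ∃ x, e = s((x, j), (x, j+1))
  · rw [par_true h, if_pos h, Nat.cast_one]
  · rw [par_false h, if_neg h, Nat.cast_zero]

theorem cside_far {G : Finset (Sym2 (ℤ × ℤ))} {i j : ℤ} (h : ∀ w, CVert G w → w.1 ≤ i) :
    cside G (i, j) = crow G j := by
  unfold cside crow eside
  apply sum_congr rfl
  intro e he
  congr 1
  rw [eq_iff_iff]
  constructor
  · rintro ⟨x, _, h2⟩
    exact ⟨x, h2⟩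
  · rintro ⟨x, rfl⟩
    exact ⟨x, h (x, j) ⟨_, he, by simp⟩, rfl⟩

theorem exists_right (G : Finset (Sym2 (ℤ × ℤ))) : ∃ i : ℤ, ∀ w, CVert G w → w.1 ≤ i := by
  classical
  obtain ⟨i, hi⟩ := ((cverts G).image Prod.fst).bddAbove
  refine ⟨i, fun w hw => ?_⟩
  exact hi (by simpa using ⟨w.2, mem_cverts.mpr hw⟩)

/-- the row parity is constant through rows without odd vertices -/
theorem crow_succ {G : Finset (Sym2 (ℤ × ℤ))} (hG : ∀ e ∈ G, e ∈ lattice.edgeSet) {j : ℤ}
    (hdeg : ∀ x, cdeg G (x, j) = 0) : crow G j = crow G (j-1) := by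
  obtain ⟨i, hi⟩ := exists_right G
  rw [← cside_far hi, ← cside_far hi]
  apply cside_up hG hdeg
  intro h
  have := hi (i+1, j) ⟨_, h, by simp⟩
  simp only at this
  omega

/-- if `G` lies in the rows `≥ M`, then the row parity at the bottom is the parity of the sum of the
degrees in the bottom row -/
theorem crow_bottom {G : Finset (Sym2 (ℤ × ℤ))} (hG : ∀ e ∈ G, e ∈ lattice.edgeSet) {M : ℤ}
    (hM : ∀ w, CVert G w → M ≤ w.2) :
    crow G M = ∑ w ∈ (cverts G).filter (fun w => w.2 = M), cdeg G w := by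
  unfold crow cdeg
  rw [sum_comm]
  apply sum_congr rfl
  intro e he
  have he' := hG e he
  have h1 : ∀ g : ℤ × ℤ → ZMod 2, ∑ w ∈ (cverts G).filter (fun w => w.2 = M), g w
      = ∑ w ∈ cverts G, if w.2 = M then g w else 0 := fun g => Finset.sum_filter _ _
  rw [h1]
  have h2 : ∀ w ∈ cverts G, (if w.2 = M then par (w ∈ e) else 0)
      = par (w ∈ e) * par (w.2 = M) := by
    intro w _
    split_ifs with h
    · rw [par_true h, mul_one]
    · rw [par_false h, mul_zero]
  rw [sum_congr rfl h2]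
  induction e using Sym2.ind with
  | _ u v =>
    rw [SimpleGraph.mem_edgeSet] at he'
    rw [sum_pair he he'.ne]
    have hu := hM u ⟨_, he, by simp⟩
    have hv := hM v ⟨_, he, by simp⟩
    rcases adj_edge_cases he' with ⟨x, y, h3, h4⟩ | ⟨x, y, h3, h4⟩
    · rw [h3]
      have e1 : par (∃ x', (s((x, y), (x, y+1)) : Sym2 (ℤ × ℤ)) = s((x', M), (x', M+1))) = par (y = M) := by
        congr 1
        rw [eq_iff_iff]
        constructor
        · rintro ⟨x', h5⟩
          rw [vert_eq_iff] at h5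
          exact h5.2
        · rintro rfl
          exact ⟨x, rfl⟩
      rw [e1]
      symm
      rcases h4 with ⟨rfl, rfl⟩ | ⟨rfl, rfl⟩
      · simp only at hu hv
        apply par_add
        by_cases hy : y = M
        · left; exact ⟨hy, by simp only; omega, hy⟩
        · right; right; right; exact ⟨hy, by simp only; omega, hy⟩
      · simp only at hu hv
        rw [add_comm]
        apply par_add
        by_cases hy : y = M
        · left; exact ⟨hy, by simp only; omega, hy⟩
        · right; right; right; exact ⟨hy, by simp only; omega, hy⟩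
    · rw [h3, par_false]
      · rcases h4 with ⟨rfl, rfl⟩ | ⟨rfl, rfl⟩
        · exact (zmod2_add_self _).symm
        · exact (zmod2_add_self _).symm
      · rintro ⟨x', h5⟩
        exact hor_ne_vert _ _ _ _ h5

/-- data of a chain crossing the strip of the rows `M..N` an odd number of times -/
structure Chain (G : Finset (Sym2 (ℤ × ℤ))) (M N : ℤ) : Prop where
  lt : M < N
  lat : ∀ e ∈ G, e ∈ lattice.edgeSet
  even : ∀ w : ℤ × ℤ, M < w.2 → w.2 < N → cdeg G w = 0
  odd : crow G M = 1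

open Classical in
theorem Chain.mk' {G : Finset (Sym2 (ℤ × ℤ))} {M N : ℤ} (h : M < N)
    (hG : ∀ e ∈ G, e ∈ lattice.edgeSet)
    (heven : ∀ w : ℤ × ℤ, M < w.2 → w.2 < N → Even (G.filter (fun e => w ∈ e)).card)
    (hodd : Odd (G.filter (fun e => ∃ x, e = s((x, M), (x, M+1)))).card) : Chain G M N where
  lt := h
  lat := hG
  even := by
    intro w h1 h2
    rw [cdeg_eq]
    exact (ZMod.natCast_eq_zero_iff_even).mpr (heven w h1 h2)
  odd := by
    rw [crow_eq]
    exact (ZMod.natCast_eq_one_iff_odd).mpr hodd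

theorem Chain.row {G : Finset (Sym2 (ℤ × ℤ))} {M N : ℤ} (h : Chain G M N) {j : ℤ} (h1 : M ≤ j)
    (h2 : j < N) : crow G j = 1 := by
  have key : ∀ k : ℕ, M + k < N → crow G (M + k) = 1 := by
    intro k
    induction k with
    | zero => intro _; simpa using h.odd
    | succ k ih =>
      intro hk
      rw [crow_succ h.lat (j := M + ((k+1:ℕ):ℤ))
        (fun x => h.even _ (by simp only; push_cast; omega) (by simpa using hk))]
      have : M + ((k+1:ℕ):ℤ) - 1 = M + k := by push_cast; ring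
      rw [this]
      apply ih
      push_cast at hk
      omega
  have := key (j - M).toNat (by omega)
  have e : M + ((j - M).toNat : ℤ) = j := by omega
  rwa [e] at this

/-- the side of a vertex of the strip -/
noncomputable def cvside (G : Finset (Sym2 (ℤ × ℤ))) (N : ℤ) (w : ℤ × ℤ) : ZMod 2 :=
  open Classical in if w.2 < N then cside G w else cside G (w.1, w.2 - 1)

theorem not_mem_left {G : Finset (Sym2 (ℤ × ℤ))} {a b : ℤ × ℤ} (h : ¬ CVert G a) :
    s(a, b) ∉ G := fun h1 => h ⟨_, h1, by simp⟩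

theorem not_mem_right {G : Finset (Sym2 (ℤ × ℤ))} {a b : ℤ × ℤ} (h : ¬ CVert G b) :
    s(a, b) ∉ G := fun h1 => h ⟨_, h1, by simp⟩

theorem Chain.side_of_vertex {G : Finset (Sym2 (ℤ × ℤ))} {M N : ℤ} (h : Chain G M N) (w : ℤ × ℤ)
    (hw : ¬ CVert G w) (hw1 : M ≤ w.2) (hw2 : w.2 ≤ N) (f : ℤ × ℤ)
    (hf1 : f.1 = w.1 ∨ f.1 = w.1 - 1) (hf2 : f.2 = w.2 ∨ f.2 = w.2 - 1)
    (hf3 : M ≤ f.2) (hf4 : f.2 < N) : cside G f = cvside G N w := by
  obtain ⟨x, y⟩ := w
  obtain ⟨i, j⟩ := f
  simp only at hw1 hw2 hf1 hf2 hf3 hf4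
  have hup : cside G (x, y) = cside G (x - 1, y) := by
    have := cside_right h.lat (i := x - 1) (j := y)
      (by rw [sub_add_cancel]; exact not_mem_left hw)
    rwa [sub_add_cancel] at this
  have hdn : cside G (x, y-1) = cside G (x - 1, y-1) := by
    have := cside_right h.lat (i := x - 1) (j := y - 1)
      (by rw [sub_add_cancel, sub_add_cancel]; exact not_mem_right hw)
    rwa [sub_add_cancel] at this
  unfold cvside
  simp only
  by_cases hy : y < N
  · rw [if_pos hy]
    rcases hf2 with rfl | rfl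
    · rcases hf1 with rfl | rfl
      · rfl
      · exact hup.symm
    · have hmid : cside G (x, y) = cside G (x, y - 1) :=
        cside_up h.lat (fun x => h.even _ (by simp only; omega) (by simp only; omega))
          (not_mem_left hw)
      rcases hf1 with rfl | rfl
      · exact hmid.symm
      · rw [hmid]; exact hdn.symm
  · rw [if_neg hy]
    have : j = y - 1 := by omega
    subst this
    rcases hf1 with rfl | rfl
    · rfl
    · exact hdn.symm

theorem Chain.vside_adj {G : Finset (Sym2 (ℤ × ℤ))} {M N : ℤ} (h : Chain G M N) {a b : ℤ × ℤ}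
    (hab : lattice.Adj a b) (ha : ¬ CVert G a) (hb : ¬ CVert G b)
    (ha1 : M ≤ a.2) (ha2 : a.2 ≤ N) (hb1 : M ≤ b.2) (hb2 : b.2 ≤ N) :
    cvside G N a = cvside G N b := by
  have hlt := h.lt
  obtain ⟨f, h1, h2, h3, h4, h5, h6⟩ : ∃ f : ℤ × ℤ, (f.1 = a.1 ∨ f.1 = a.1 - 1) ∧
      (f.2 = a.2 ∨ f.2 = a.2 - 1) ∧ (f.1 = b.1 ∨ f.1 = b.1 - 1) ∧ (f.2 = b.2 ∨ f.2 = b.2 - 1) ∧
      M ≤ f.2 ∧ f.2 < N := by
    rcases adj_edge_cases hab with ⟨x, y, _, (⟨rfl, rfl⟩ | ⟨rfl, rfl⟩)⟩ | ⟨x, y, _, (⟨rfl, rfl⟩ | ⟨rfl, rfl⟩)⟩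
    · exact ⟨(x, y), by simp, by simp, by simp, by simp, ha1, by simp only at hb2 ⊢; omega⟩
    · exact ⟨(x, y), by simp, by simp, by simp, by simp, hb1, by simp only at ha2 ⊢; omega⟩
    · by_cases hy : y < N
      · exact ⟨(x, y), by simp, by simp, by simp, by simp, ha1, hy⟩
      · simp only at ha1 ha2
        exact ⟨(x, y-1), by simp, by simp, by simp, by simp, by simp only; omega, by simp only; omega⟩
    · by_cases hy : y < N
      · exact ⟨(x, y), by simp, by simp, by simp, by simp, hb1, hy⟩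
      · simp only at ha1 ha2
        exact ⟨(x, y-1), by simp, by simp, by simp, by simp, by simp only; omega, by simp only; omega⟩
  rw [← h.side_of_vertex a ha ha1 ha2 f h1 h2 h5 h6, ← h.side_of_vertex b hb hb1 hb2 f h3 h4 h5 h6]

theorem Chain.vside_const {G : Finset (Sym2 (ℤ × ℤ))} {M N : ℤ} (h : Chain G M N) {a b : ℤ × ℤ}
    (q : lattice.Walk a b) (hq : ∀ w ∈ q.support, M ≤ w.2 ∧ w.2 ≤ N)
    (hpq : ∀ w ∈ q.support, ¬ CVert G w) : ∀ w ∈ q.support, cvside G N w = cvside G N b := by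
  induction q with
  | nil =>
    intro w hw
    rw [Walk.support_nil, List.mem_singleton] at hw
    rw [hw]
  | @cons a c b hadj q ih =>
    have ih' := ih (fun w hw => hq w (by simp [hw])) (fun w hw => hpq w (by simp [hw]))
    intro w hw
    rw [Walk.support_cons, List.mem_cons] at hw
    rcases hw with rfl | hw
    · rw [h.vside_adj hadj (hpq _ (by simp)) (hpq _ (by simp)) (hq _ (by simp)).1
        (hq _ (by simp)).2 (hq _ (by simp)).1 (hq _ (by simp)).2]
      exact ih' c (by simp)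
    · exact ih' w hw

theorem Chain.vside_left {G : Finset (Sym2 (ℤ × ℤ))} {M N : ℤ} (h : Chain G M N) {a : ℤ × ℤ}
    (ha : ¬ CVert G a) (ha1 : M ≤ a.2) (ha2 : a.2 ≤ N) (hl : ∀ w, CVert G w → a.1 ≤ w.1) :
    cvside G N a = 0 := by
  have hlt := h.lt
  have h1 : ∀ j, cside G (a.1 - 1, j) = 0 := fun j =>
    cside_left (fun w hw => by have := hl w hw; omega)
  by_cases hy : a.2 < N
  · rw [← h.side_of_vertex a ha ha1 ha2 (a.1 - 1, a.2) (by simp) (by simp) ha1 hy]
    exact h1 _
  · rw [← h.side_of_vertex a ha ha1 ha2 (a.1 - 1, a.2 - 1) (by simp) (by simp)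
      (by simp only; omega) (by simp only; omega)]
    exact h1 _

theorem Chain.vside_right {G : Finset (Sym2 (ℤ × ℤ))} {M N : ℤ} (h : Chain G M N) {a : ℤ × ℤ}
    (ha : ¬ CVert G a) (ha1 : M ≤ a.2) (ha2 : a.2 ≤ N) (hr : ∀ w, CVert G w → w.1 ≤ a.1) :
    cvside G N a = 1 := by
  have hlt := h.lt
  by_cases hy : a.2 < N
  · rw [← h.side_of_vertex a ha ha1 ha2 (a.1, a.2) (by simp) (by simp) ha1 hy]
    rw [cside_far hr]
    exact h.row ha1 hy
  · rw [← h.side_of_vertex a ha ha1 ha2 (a.1, a.2 - 1) (by simp) (by simp)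
      (by simp only; omega) (by simp only; omega)]
    rw [cside_far hr]
    exact h.row (by omega) (by omega)

/-- **Crossing, chain version** -/
theorem Chain.crossing {G : Finset (Sym2 (ℤ × ℤ))} {M N : ℤ} (h : Chain G M N) {a b : ℤ × ℤ}
    (q : lattice.Walk a b) (hq : ∀ w ∈ q.support, M ≤ w.2 ∧ w.2 ≤ N)
    (ha : ∀ w, CVert G w → a.1 ≤ w.1) (hb : ∀ w, CVert G w → w.1 ≤ b.1) :
    ∃ w ∈ q.support, CVert G w := by
  by_contra hcon
  have hpq : ∀ w ∈ q.support, ¬ CVert G w := fun w hw hw' => hcon ⟨w, hw, hw'⟩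
  have h1 := h.vside_const q hq hpq a q.start_mem_support
  have h2 := hq a q.start_mem_support
  have h3 := hq b q.end_mem_support
  rw [h.vside_left (hpq a q.start_mem_support) h2.1 h2.2 ha,
    h.vside_right (hpq b q.end_mem_support) h3.1 h3.2 hb] at h1
  exact absurd h1 (by decide)

/-- after its last vertex on the chain a walk to the right of the chain is on side `1` -/
theorem Chain.last {G : Finset (Sym2 (ℤ × ℤ))} {M N : ℤ} (h : Chain G M N) {a b : ℤ × ℤ}
    (q : lattice.Walk a b) (hq : ∀ w ∈ q.support, M ≤ w.2 ∧ w.2 ≤ N)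
    (hb : ∀ w, CVert G w → w.1 ≤ b.1) (hmeet : ∃ w ∈ q.support, CVert G w) :
    ∃ c, ∃ q₁ : lattice.Walk a c, ∃ q₂ : lattice.Walk c b, CVert G c ∧ q = q₁.append q₂ ∧
      ∀ w ∈ q₂.support.tail, ¬ CVert G w ∧ cvside G N w = 1 := by
  obtain ⟨c, q₁, q₂, hc, hqq, hn⟩ := last_visit (fun z => CVert G z) q hmeet
  refine ⟨c, q₁, q₂, hc, hqq, ?_⟩
  have hq2 : ∀ z ∈ q₂.support, z ∈ q.support := by
    intro z hz
    rw [hqq, Walk.mem_support_append_iff]
    exact Or.inr hz
  cases q₂ with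
  | nil => simp
  | @cons _ d _ hadj r =>
    rw [Walk.support_cons, List.tail_cons] at hn ⊢
    have hr : ∀ z ∈ r.support, M ≤ z.2 ∧ z.2 ≤ N := fun z hz =>
      hq z (hq2 z (by rw [Walk.support_cons]; exact List.mem_cons_of_mem _ hz))
    intro z hz
    refine ⟨hn z hz, ?_⟩
    rw [h.vside_const r hr hn z hz]
    exact h.vside_right (hn _ r.end_mem_support) (hr _ r.end_mem_support).1
      (hr _ r.end_mem_support).2 hb

/-- crossing and last vertex together -/
theorem Chain.crossing_last {G : Finset (Sym2 (ℤ × ℤ))} {M N : ℤ} (h : Chain G M N) {a b : ℤ × ℤ}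
    (q : lattice.Walk a b) (hq : ∀ w ∈ q.support, M ≤ w.2 ∧ w.2 ≤ N)
    (ha : ∀ w, CVert G w → a.1 ≤ w.1) (hb : ∀ w, CVert G w → w.1 ≤ b.1) :
    ∃ c, ∃ q₁ : lattice.Walk a c, ∃ q₂ : lattice.Walk c b, CVert G c ∧ q = q₁.append q₂ ∧
      ∀ w ∈ q₂.support.tail, ¬ CVert G w ∧ cvside G N w = 1 :=
  h.last q hq hb (h.crossing q hq ha hb)

/-- faces: the side is constant along face walks that do not cross `G` -/
theorem Chain.face_adj {G : Finset (Sym2 (ℤ × ℤ))} {M N : ℤ} (h : Chain G M N) {f g : ℤ × ℤ}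
    (hadj : lattice.Adj f g) (hf1 : M ≤ f.2) (hf2 : f.2 < N) (hg1 : M ≤ g.2) (hg2 : g.2 < N)
    (hc : crossEdge f g ∉ G) : cside G f = cside G g := by
  have key : ∀ {f g : ℤ × ℤ}, (g = (f.1, f.2+1) ∨ g = (f.1+1, f.2)) → M ≤ f.2 → g.2 < N →
      crossEdge f g ∉ G → cside G f = cside G g := by
    rintro ⟨i, j⟩ g (rfl | rfl) h1 h2 h3
    · simp only at h1 h2
      have e : crossEdge (i, j) (i, j+1) = s((i, j+1), (i+1, j+1)) := by
        unfold crossEdge
        rw [if_neg (by simp)]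
        simp
      simp only at h3
      rw [e] at h3
      have := cside_up h.lat (i := i) (j := j+1)
        (fun x => h.even _ (by simp only; omega) (by simp only; omega)) h3
      rw [add_sub_cancel_right] at this
      exact this.symm
    · have e : crossEdge (i, j) (i+1, j) = s((i+1, j), (i+1, j+1)) := by
        unfold crossEdge
        rw [if_pos rfl]
        simp
      simp only at h3
      rw [e] at h3
      exact (cside_right h.lat h3).symm
  rcases adj_edge_cases hadj with ⟨x, y, _, (⟨rfl, rfl⟩ | ⟨rfl, rfl⟩)⟩ | ⟨x, y, _, (⟨rfl, rfl⟩ | ⟨rfl, rfl⟩)⟩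
  · exact key (Or.inl rfl) hf1 hg2 hc
  · rw [crossEdge_comm hadj] at hc
    exact (key (Or.inl rfl) hg1 hf2 hc).symm
  · exact key (Or.inr rfl) hf1 hg2 hc
  · rw [crossEdge_comm hadj] at hc
    exact (key (Or.inr rfl) hg1 hf2 hc).symm

theorem Chain.face_const {G : Finset (Sym2 (ℤ × ℤ))} {M N : ℤ} (h : Chain G M N) {f g : ℤ × ℤ}
    (q : lattice.Walk f g) (hq : ∀ w ∈ q.support, M ≤ w.2 ∧ w.2 < N)
    (hc : ∀ d ∈ q.darts, crossEdge d.fst d.snd ∉ G) :
    ∀ w ∈ q.support, cside G w = cside G g := by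
  induction q with
  | nil =>
    intro w hw
    rw [Walk.support_nil, List.mem_singleton] at hw
    rw [hw]
  | @cons a c b hadj q ih =>
    have ih' := ih (fun w hw => hq w (by simp [hw])) (fun d hd => hc d (by simp [hd]))
    intro w hw
    rw [Walk.support_cons, List.mem_cons] at hw
    rcases hw with rfl | hw
    · rw [h.face_adj hadj (hq _ (by simp)).1 (hq _ (by simp)).2 (hq _ (by simp)).1
        (hq _ (by simp)).2 (hc ⟨(_, c), hadj⟩ (by simp))]
      exact ih' c (by simp)
    · exact ih' w hw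

/-- dual crossing, chain version -/
theorem Chain.crossing_faces {G : Finset (Sym2 (ℤ × ℤ))} {M N : ℤ} (h : Chain G M N) {f g : ℤ × ℤ}
    (q : lattice.Walk f g) (hq : ∀ w ∈ q.support, M ≤ w.2 ∧ w.2 < N)
    (hf : ∀ w, CVert G w → f.1 < w.1) (hg : ∀ w, CVert G w → w.1 ≤ g.1) :
    ∃ d ∈ q.darts, crossEdge d.fst d.snd ∈ G := by
  by_contra hcon
  have hc : ∀ d ∈ q.darts, crossEdge d.fst d.snd ∉ G := fun d hd h => hcon ⟨d, hd, h⟩
  have h1 := h.face_const q hq hc f q.start_mem_support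
  have h3 := hq g q.end_mem_support
  have h4 : cside G g = 1 := by
    have : g = (g.1, g.2) := rfl
    rw [this, cside_far hg]
    exact h.row h3.1 h3.2
  have h5 : cside G f = 0 := cside_left (i := f.1) (j := f.2) hf
  rw [h4, h5] at h1
  exact absurd h1 (by decide)

end H47Perc
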