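import Pool.Agent.Helper47.Perc.Arms

/-!
Connection probabilities in strips: limits of the connection probabilities in long boxes,
exponential decay along the strip, and the sum rule for strips.
-/

set_option autoImplicit false

namespace H47Perc.StripF
open Finset Filter Topology
open Pool.Agent.Helper69.RSW (P P_mono P_map P_restrict P_congr Dep Up harris P_nonneg P_indep
  P_or_le P_le_one P_compl P_true)

/-- probability that the origin is joined to `z` in the box `[-M,M] × [0,n]` -/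
noncomputable def pB (M n : ℕ) (z : ℤ × ℤ) : ℝ :=
  perc half (box (-M) M 0 n) (fun ω => Joined ω (0, 0) z)

/-- probability that the origin is joined to `z` in the strip `ℤ × [0,n]` -/
noncomputable def stP (n : ℕ) (z : ℤ × ℤ) : ℝ := ⨆ M : ℕ, pB M n z

lemma pB_nonneg (M n : ℕ) (z : ℤ × ℤ) : 0 ≤ pB M n z := perc_half_nonneg _ _

lemma pB_le_one (M n : ℕ) (z : ℤ × ℤ) : pB M n z ≤ 1 := perc_half_le_one _ _

/-- larger domains have larger connection probabilities -/
lemma perc_joined_mono {S T : Finset (ℤ × ℤ)} (h : S ⊆ T) (u v : ℤ × ℤ) :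
    perc half S (fun ω => Joined ω u v) ≤ perc half T (fun ω => Joined ω u v) := by
  rw [← perc_restrict h]
  exact perc_half_mono (fun ω _ hj => joined_mono inter_subset_left hj)

lemma pB_mono {M M' n n' : ℕ} (h : M ≤ M') (h' : n ≤ n') (z : ℤ × ℤ) :
    pB M n z ≤ pB M' n' z :=
  perc_joined_mono (box_mono (by omega) (by omega) (by omega) (by omega)) _ _

lemma pB_bdd (n : ℕ) (z : ℤ × ℤ) : BddAbove (Set.range (fun M : ℕ => pB M n z)) :=
  ⟨1, by rintro _ ⟨M, rfl⟩; exact pB_le_one _ _ _⟩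

/-- the strip probability is the limit of the box probabilities -/
theorem tendsto_pB (n : ℕ) (z : ℤ × ℤ) :
    Tendsto (fun M : ℕ => pB M n z) atTop (𝓝 (stP n z)) :=
  tendsto_atTop_ciSup (fun _ _ h => pB_mono h le_rfl z) (pB_bdd n z)

lemma pB_le_stP (M n : ℕ) (z : ℤ × ℤ) : pB M n z ≤ stP n z := le_ciSup (pB_bdd n z) M

lemma stP_nonneg (n : ℕ) (z : ℤ × ℤ) : 0 ≤ stP n z := (pB_nonneg 0 n z).trans (pB_le_stP 0 n z)

lemma stP_le_one (n : ℕ) (z : ℤ × ℤ) : stP n z ≤ 1 := ciSup_le (fun M => pB_le_one M n z)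

lemma box_reflX (M n : ℕ) :
    (box (-M) M 0 n).map reflX.toEmbedding = box (-M) M 0 n := by
  ext ⟨x, y⟩
  rw [mem_map_equiv, mem_box, mem_box]
  simp only [reflX, Equiv.prodCongr_symm, Equiv.neg_symm, Equiv.refl_symm,
    Equiv.prodCongr_apply, Prod.map_apply, Equiv.neg_apply, Equiv.coe_refl, id_eq]
  omega

lemma pB_neg (M n : ℕ) (x y : ℤ) : pB M n (-x, y) = pB M n (x, y) := by
  unfold pB
  conv_lhs => rw [← box_reflX, perc_half_map reflX_sym.1]
  congr 1
  funext ω
  have := joined_map (f := reflX) (ω := ω) (u := (0, 0)) (v := (x, y))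
  simpa [reflX] using this

lemma stP_neg (n : ℕ) (x y : ℤ) : stP n (-x, y) = stP n (x, y) := by
  unfold stP
  congr 1
  funext M
  exact pB_neg M n x y

/-! ### exponential decay along the strip -/

/-- some horizontal edge of column `x` is open -/
def ColOpen (n : ℕ) (x : ℤ) (ω : Finset (Sym2 (ℤ × ℤ))) : Prop :=
  ∃ y : ℤ, 0 ≤ y ∧ y ≤ n ∧ hE x y ∈ ω

open Classical in
/-- the horizontal edges of column `x` -/
noncomputable def colE (n : ℕ) (x : ℤ) : Finset (Sym2 (ℤ × ℤ)) :=
  (Finset.Icc (0:ℤ) n).image (fun y => hE x y)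

lemma hE_inj {x y x' y' : ℤ} (h : hE x y = hE x' y') : x = x' ∧ y = y' :=
  (hor_eq_iff x y x' y').1 h

lemma mem_colE {n : ℕ} {x : ℤ} {e : Sym2 (ℤ × ℤ)} :
    e ∈ colE n x ↔ ∃ y : ℤ, (0 ≤ y ∧ y ≤ n) ∧ hE x y = e := by
  unfold colE
  rw [mem_image]
  simp only [Finset.mem_Icc]

lemma colOpen_dep (n : ℕ) (x : ℤ) : Dep (colE n x) (ColOpen n x) := by
  intro ω
  unfold ColOpen
  constructor
  · rintro ⟨y, h1, h2, h3⟩
    exact ⟨y, h1, h2, mem_inter.2 ⟨h3, mem_colE.2 ⟨y, ⟨h1, h2⟩, rfl⟩⟩⟩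
  · rintro ⟨y, h1, h2, h3⟩
    exact ⟨y, h1, h2, (mem_inter.1 h3).1⟩

lemma card_colE (n : ℕ) (x : ℤ) : #(colE n x) = n + 1 := by
  classical
  unfold colE
  rw [card_image_of_injective _ (fun y y' h => (hE_inj h).2)]
  simp

lemma P_empty_event {E : Type*} [DecidableEq E] (F : Finset E) :
    P F (fun S => S = ∅) = (1/2) ^ #F := by
  classical
  unfold Pool.Agent.Helper69.RSW.P
  have : F.powerset.filter (fun S => S = ∅) = {∅} := by
    ext S
    simp only [mem_filter, mem_powerset, mem_singleton]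
    constructor
    · rintro ⟨_, h⟩; exact h
    · rintro rfl; exact ⟨empty_subset _, rfl⟩
  have h2 : #(F.powerset.filter (fun S => S = ∅)) = 1 := by rw [this]; simp
  rw [one_div, inv_pow, ← one_div]
  congr 1
  have h3 : ((#(F.powerset.filter (fun S => S = ∅)) : ℕ) : ℝ) = 1 := by rw [h2]; norm_num
  rw [← h3]
  congr!

/-- the decay rate -/
noncomputable def rr (n : ℕ) : ℝ := 1 - (1/2) ^ (n + 1)

lemma rr_pos (n : ℕ) : 0 < rr n := by
  unfold rr
  have : ((1:ℝ)/2) ^ (n+1) < 1 := pow_lt_one₀ (by norm_num) (by norm_num) (by omega)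
  linarith

lemma rr_lt_one (n : ℕ) : rr n < 1 := by
  unfold rr
  have : 0 < ((1:ℝ)/2) ^ (n+1) := by positivity
  linarith

lemma P_colOpen (n : ℕ) (x : ℤ) : P (colE n x) (ColOpen n x) = rr n := by
  have h1 := P_compl (colE n x) (fun S => S = ∅)
  rw [P_empty_event, card_colE] at h1
  have h2 : P (colE n x) (ColOpen n x) = P (colE n x) (fun S => ¬ S = ∅) := by
    apply P_congr
    intro S hS
    unfold ColOpen
    constructor
    · rintro ⟨y, h1, h2, h3⟩ rfl
      simp at h3
    · intro h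
      obtain ⟨e, he⟩ := nonempty_iff_ne_empty.2 h
      obtain ⟨y, h1, rfl⟩ := mem_colE.1 (hS he)
      exact ⟨y, h1.1, h1.2, he⟩
  rw [h2]
  unfold rr
  linarith

/-- the columns `0, …, k-1` all have an open horizontal edge -/
def ColsOpen (n : ℕ) (k : ℕ) (ω : Finset (Sym2 (ℤ × ℤ))) : Prop :=
  ∀ x : ℕ, x < k → ColOpen n x ω

open Classical in
/-- the horizontal edges of the columns `0, …, k-1` -/
noncomputable def colsE (n k : ℕ) : Finset (Sym2 (ℤ × ℤ)) :=
  (Finset.range k).biUnion (fun x => colE n x)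

lemma colsOpen_dep (n k : ℕ) : Dep (colsE n k) (ColsOpen n k) := by
  classical
  intro ω
  unfold ColsOpen
  apply forall_congr'
  intro x
  apply forall_congr'
  intro hx
  have hsub : colE n x ⊆ colsE n k := by
    intro e he
    unfold colsE
    rw [mem_biUnion]
    exact ⟨x, mem_range.2 hx, he⟩
  exact (colOpen_dep n x).mono hsub ω

lemma colE_subset {M n : ℕ} {x : ℤ} (h1 : -(M:ℤ) ≤ x) (h2 : x < M) :
    colE n x ⊆ edgesIn (box (-M) M 0 n) := by
  intro e he
  obtain ⟨y, h3, rfl⟩ := mem_colE.1 he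
  rw [hE_mem, mem_box, mem_box]
  simp only
  omega

lemma P_colsOpen {M n k : ℕ} (h : k ≤ M) :
    P (edgesIn (box (-M) M 0 n)) (ColsOpen n k) = rr n ^ k := by
  classical
  induction k with
  | zero =>
    rw [pow_zero, ← P_true (edgesIn (box (-M) M 0 n))]
    apply P_congr
    intro S _
    unfold ColsOpen
    simp
  | succ k ih =>
    have e : P (edgesIn (box (-M) M 0 n)) (ColsOpen n (k+1))
        = P (edgesIn (box (-M) M 0 n)) (fun ω => ColsOpen n k ω ∧ ColOpen n k ω) := by
      apply P_congr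
      intro S _
      unfold ColsOpen
      constructor
      · intro h1
        exact ⟨fun x hx => h1 x (by omega), h1 k (by omega)⟩
      · rintro ⟨h1, h2⟩ x hx
        rcases Nat.lt_succ_iff_lt_or_eq.1 hx with h3 | rfl
        · exact h1 x h3
        · exact h2
    have hs1 : colsE n k ⊆ edgesIn (box (-M) M 0 n) := by
      intro e he
      unfold colsE at he
      rw [mem_biUnion] at he
      obtain ⟨x, hx, he⟩ := he
      rw [mem_range] at hx
      exact colE_subset (by omega) (by omega) he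
    have hs2 : colE n k ⊆ edgesIn (box (-M) M 0 n) := colE_subset (by omega) (by omega)
    have hd : Disjoint (colsE n k) (colE n k) := by
      rw [disjoint_left]
      intro e h1 h2
      unfold colsE at h1
      rw [mem_biUnion] at h1
      obtain ⟨x, hx, he⟩ := h1
      rw [mem_range] at hx
      obtain ⟨y, _, rfl⟩ := mem_colE.1 he
      obtain ⟨y', _, h3⟩ := mem_colE.1 h2
      have := (hE_inj h3).1
      omega
    rw [e, P_indep hs1 hs2 hd (colsOpen_dep n k) (colOpen_dep n k), ih (by omega),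
      P_restrict hs2 (colOpen_dep n k), P_colOpen, pow_succ]

/-- a connection from the origin to `z` crosses the columns between them -/
lemma colsOpen_of_joined {M n k : ℕ} {z : ℤ × ℤ} (hz : (k:ℤ) ≤ z.1)
    {ω : Finset (Sym2 (ℤ × ℤ))} (hω : ω ⊆ edgesIn (box (-M) M 0 n))
    (hj : Joined ω (0, 0) z) : ColsOpen n k ω := by
  classical
  intro x hx
  have h0 : ((0, 0) : ℤ × ℤ) ∈ (box (-M) M 0 n).filter (fun w => w.1 ≤ (x:ℤ)) := by
    rw [mem_filter, mem_box]
    simp only
    omega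
  have h1 : z ∉ (box (-M) M 0 n).filter (fun w => w.1 ≤ (x:ℤ)) := by
    rw [mem_filter]
    rintro ⟨_, h⟩
    omega
  obtain ⟨w, w', w1, w2, w3, w4, w5, w6⟩ := joined_exit hω hj h0 h1
  rw [mem_filter, mem_box] at w1 w2
  rw [mem_box] at w3
  obtain ⟨a, b⟩ := w
  obtain ⟨a', b'⟩ := w'
  simp only at w1 w2 w3
  rcases w4 with ⟨e1, e2⟩ | ⟨e1, e2⟩
  · simp only at e1 e2
    exfalso
    apply w2
    rw [← e1]
    exact ⟨⟨w1.1.1, w1.1.2.1, w3.2.2.1, w3.2.2.2⟩, w1.2⟩
  · simp only at e1 e2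
    subst e1
    have hx' : x < a' := by
      by_contra hcon
      apply w2
      refine ⟨w3, by omega⟩
    have : a = x ∧ a' = x + 1 := by
      rcases (abs_eq (by norm_num)).1 e2 with e3 | e3 <;> omega
    obtain ⟨rfl, rfl⟩ := this
    exact ⟨b, w1.1.2.2.1, w1.1.2.2.2, w5⟩

lemma pB_decay_pos {M n k : ℕ} (hk : k ≤ M) {z : ℤ × ℤ} (hz : (k:ℤ) ≤ z.1) :
    pB M n z ≤ rr n ^ k := by
  rw [← P_colsOpen hk, ← Pool.Agent.Helper69.RSW.perc_half_eq]
  exact perc_half_mono (fun ω hω hj => colsOpen_of_joined hz hω hj)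

lemma pB_outside {M n : ℕ} {z : ℤ × ℤ} (h : z ∉ box (-M) M 0 n) : pB M n z = 0 := by
  have h0 : ((0, 0) : ℤ × ℤ) ∈ box (-M) M 0 n := by
    rw [mem_box]; simp only; omega
  unfold pB
  rw [Pool.Agent.Helper69.RSW.perc_half_eq,
    ← Pool.Agent.Helper69.RSW.P_false (edgesIn (box (-M) M 0 n))]
  apply P_congr
  intro ω hω
  simp only [iff_false]
  intro hj
  exact h (mem_of_joined hω hj h0)

/-- **Exponential decay along the strip.** -/
theorem pB_decay (M n : ℕ) (z : ℤ × ℤ) : pB M n z ≤ rr n ^ z.1.natAbs := by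
  by_cases h : z ∈ box (-M) M 0 n
  · have hb := mem_box.1 h
    obtain ⟨x, y⟩ := z
    simp only at hb
    rcases le_total 0 x with hx | hx
    · exact pB_decay_pos (by omega) (by simp only; omega)
    · rw [← pB_neg]
      have : x.natAbs = (-x).natAbs := by simp
      simp only [this]
      exact pB_decay_pos (by omega) (by simp only; omega)
  · rw [pB_outside h]
    exact pow_nonneg (rr_pos n).le _

theorem stP_decay (n : ℕ) (z : ℤ × ℤ) : stP n z ≤ rr n ^ z.1.natAbs :=
  ciSup_le (fun M => pB_decay M n z)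

lemma summable_rr (n : ℕ) : Summable (fun x : ℤ => rr n ^ x.natAbs) := by
  have h := summable_geometric_of_lt_one (rr_pos n).le (rr_lt_one n)
  apply Summable.of_nat_of_neg
  · simpa using h
  · simpa using h

lemma summable_stP (n : ℕ) (y : ℤ) : Summable (fun x : ℤ => stP n (x, y)) :=
  Summable.of_nonneg_of_le (fun x => stP_nonneg n _) (fun x => stP_decay n (x, y)) (summable_rr n)

lemma summable_stP_nat (n : ℕ) (y : ℤ) : Summable (fun x : ℕ => stP n ((x:ℤ) + 1, y)) := by
  have h := (summable_nat_add_iff 1).2 (summable_geometric_of_lt_one (rr_pos n).le (rr_lt_one n))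
  refine Summable.of_nonneg_of_le (fun x => stP_nonneg n _) (fun x => ?_) h
  have := stP_decay n ((x:ℤ) + 1, y)
  have e : ((x:ℤ) + 1).natAbs = x + 1 := by omega
  rwa [e] at this

/-! ### the sum rule for strips -/

/-- sums over a row of the box converge to the sum over the row of the strip -/
theorem tendsto_row (n : ℕ) (y : ℤ) :
    Tendsto (fun M : ℕ => ∑ x ∈ Finset.Icc (-(M:ℤ)) M, pB M n (x, y)) atTop
      (𝓝 (∑' x : ℤ, stP n (x, y))) := by
  have e : ∀ M : ℕ, ∑ x ∈ Finset.Icc (-(M:ℤ)) M, pB M n (x, y) = ∑' x : ℤ, pB M n (x, y) := by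
    intro M
    symm
    apply tsum_eq_sum
    intro x hx
    apply pB_outside
    rw [mem_box]
    rw [Finset.mem_Icc] at hx
    simp only
    omega
  simp_rw [e]
  apply tendsto_tsum_of_dominated_convergence (summable_rr n)
  · intro x
    exact tendsto_pB n (x, y)
  · refine Eventually.of_forall (fun M x => ?_)
    rw [Real.norm_of_nonneg (pB_nonneg _ _ _)]
    exact pB_decay M n (x, y)

theorem tendsto_row_pos (n : ℕ) (y : ℤ) :
    Tendsto (fun M : ℕ => ∑ x ∈ Finset.Icc (1:ℤ) M, pB M n (x, y)) atTop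
      (𝓝 (∑' x : ℕ, stP n ((x:ℤ) + 1, y))) := by
  have e : ∀ M : ℕ, ∑ x ∈ Finset.Icc (1:ℤ) M, pB M n (x, y)
      = ∑' x : ℕ, pB M n ((x:ℤ) + 1, y) := by
    intro M
    rw [tsum_eq_sum (s := Finset.range M)]
    · symm
      apply Finset.sum_bij (fun (a : ℕ) _ => (a:ℤ) + 1)
      · intro a ha
        rw [mem_range] at ha
        rw [Finset.mem_Icc]
        omega
      · intro a _ b _ h
        omega
      · intro b hb
        rw [Finset.mem_Icc] at hb
        refine ⟨(b - 1).toNat, ?_, ?_⟩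
        · rw [mem_range]; omega
        · omega
      · intro a _
        rfl
    · intro x hx
      apply pB_outside
      rw [mem_box]
      rw [mem_range] at hx
      simp only
      omega
  simp_rw [e]
  have h := (summable_nat_add_iff 1).2 (summable_geometric_of_lt_one (rr_pos n).le (rr_lt_one n))
  apply tendsto_tsum_of_dominated_convergence h
  · intro x
    exact tendsto_pB n _
  · filter_upwards with M x
    rw [Real.norm_of_nonneg (pB_nonneg _ _ _)]
    have := pB_decay M n ((x:ℤ) + 1, y)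
    have e : ((x:ℤ) + 1).natAbs = x + 1 := by omega
    rwa [e] at this

/-- the far side of the box does not contribute in the limit -/
theorem tendsto_side (n : ℕ) :
    Tendsto (fun M : ℕ => ∑ y ∈ Finset.Icc (0:ℤ) n, pB M n (M, y)) atTop (𝓝 0) := by
  have h1 : Tendsto (fun M : ℕ => ((n:ℝ) + 1) * rr n ^ M) atTop (𝓝 (((n:ℝ) + 1) * 0)) :=
    (tendsto_pow_atTop_nhds_zero_of_lt_one (rr_pos n).le (rr_lt_one n)).const_mul _
  rw [mul_zero] at h1
  refine squeeze_zero (fun M => sum_nonneg (fun y _ => pB_nonneg _ _ _)) (fun M => ?_) h1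
  calc ∑ y ∈ Finset.Icc (0:ℤ) n, pB M n (M, y)
      ≤ ∑ _y ∈ Finset.Icc (0:ℤ) n, rr n ^ M := by
        apply sum_le_sum
        intro y _
        have := pB_decay M n ((M:ℤ), y)
        simpa using this
    _ = ((n:ℝ) + 1) * rr n ^ M := by
        rw [sum_const, nsmul_eq_mul]
        simp

/-- the flat-side sum rule for boxes -/
def FlatRule : Prop := ∀ M n : ℕ,
  ∑ x ∈ Finset.Icc (-(M:ℤ)) M, pB M n (x, n) + ∑ y ∈ Finset.Icc (0:ℤ) n, pB M n (M, y)
    = 2 + ∑ x ∈ Finset.Icc (1:ℤ) M, pB M n (x, 0)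

/-- **The sum rule for strips.** -/
theorem strip_rule (hF : FlatRule) (n : ℕ) :
    ∑' x : ℤ, stP n (x, n) = 2 + ∑' x : ℕ, stP n ((x:ℤ) + 1, 0) := by
  have h1 := (tendsto_row n n).add (tendsto_side n)
  have h2 := (tendsto_row_pos n 0).const_add 2
  rw [add_zero] at h1
  refine tendsto_nhds_unique h1 ?_
  refine h2.congr (fun M => ?_)
  exact (hF M n).symm

end H47Perc.StripF
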